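import Pool.Agent.Helper20.EX.Monotone

/-!
# Somewhere dense classes contain the forests of subdivided stars
-/

set_option autoImplicit false

namespace Pool.Agent.Helper80.EX

open FirstOrder FirstOrder.Language Pool.Agent.Helper20.Spectra Pool.Agent.Helper20.OP
  Pool.Agent.Helper20.FS Pool.Agent.Helper20.EX

/-- the numbers of the original vertices on the rays -/
def wN (M a j : ℕ) : ℕ → ℕ
  | 0 => a
  | m + 1 => M + ((a * M + j) * M + m)

/-- the number of original vertices -/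
abbrev LL (M : ℕ) : ℕ := M + M * M * M

lemma wN_lt {M a j m : ℕ} (ha : a < M) (hj : j < M) (hm : m ≤ M) : wN M a j m < LL M := by
  rcases m with _ | m
  · show a < M + M * M * M
    omega
  · show M + ((a * M + j) * M + m) < M + M * M * M
    have h1 : (a + 1) * M ≤ M * M := Nat.mul_le_mul_right _ ha
    have h2 : (a * M + j + 1) * M ≤ M * M * M := by
      apply Nat.mul_le_mul_right
      rw [add_mul] at h1
      omega
    rw [add_mul] at h2
    omega

lemma wN_step {M a j m : ℕ} (ha : a < M) : wN M a j m < wN M a j (m + 1) := by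
  rcases m with _ | m
  · show a < M + ((a * M + j) * M + 0)
    omega
  · show M + ((a * M + j) * M + m) < M + ((a * M + j) * M + (m + 1))
    omega

lemma dm2 {c a a' k k' : ℕ} (hk : k < c) (hk' : k' < c) (h : a * c + k = a' * c + k') :
    a = a' ∧ k = k' := by
  have h1 := congrArg (· % c) h
  simp only [Nat.mul_add_mod_self_right] at h1
  rw [Nat.mod_eq_of_lt hk, Nat.mod_eq_of_lt hk'] at h1
  subst h1
  exact ⟨Nat.eq_of_mul_eq_mul_right (by omega : 0 < c) (by omega), rfl⟩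

lemma wN_inj {M a j m a' j' m' : ℕ} (ha : a < M) (ha' : a' < M) (hj : j < M) (hj' : j' < M)
    (hm : m ≤ M) (hm' : m' ≤ M) (h : wN M a j m = wN M a' j' m') :
    a = a' ∧ m = m' ∧ (m = 0 ∨ j = j') := by
  rcases m with _ | m <;> rcases m' with _ | m'
  · exact ⟨h, rfl, Or.inl rfl⟩
  · have h1 : a = M + ((a' * M + j') * M + m') := h
    omega
  · have h1 : M + ((a * M + j) * M + m) = a' := h
    omega
  · have h1 : M + ((a * M + j) * M + m) = M + ((a' * M + j') * M + m') := h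
    obtain ⟨h2, h3⟩ := dm2 (c := M) (by omega) (by omega) (Nat.add_left_cancel h1)
    obtain ⟨h4, h5⟩ := dm2 hj hj' h2
    exact ⟨h4, by omega, Or.inr h5⟩

/-- the complete graph -/
abbrev cmp (n : ℕ) : Str 1 (Fin n) := fun _ x y => x ≠ y

/-- the vertices of the subdivision of the complete graph -/
abbrev Tgt (r M : ℕ) : Type := Fin (LL M) ⊕ EdgeOf (cmp (LL M)) × Fin r

section

variable {r M a j : ℕ} (ha : a < M) (hj : j < M)

/-- the vertex at distance `m (r + 1) + k` -/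
def QQ (m : ℕ) : (k : ℕ) → (m * (r + 1) + k ≤ M) → (k ≤ r) → Tgt r M
  | 0, h, _ => Sum.inl ⟨wN M a j m, wN_lt ha hj (by
      have : m * 1 ≤ m * (r + 1) := Nat.mul_le_mul_left _ (by omega)
      omega)⟩
  | k + 1, h, hk => Sum.inr (⟨(⟨wN M a j m, wN_lt ha hj (by
      have : m * 1 ≤ m * (r + 1) := Nat.mul_le_mul_left _ (by omega)
      omega)⟩, ⟨wN M a j (m + 1), wN_lt ha hj (by
      have : m * 1 ≤ m * (r + 1) := Nat.mul_le_mul_left _ (by omega)
      omega)⟩), wN_step ha, fun h' => absurd (Fin.mk.inj h') (wN_step ha).ne⟩, ⟨k, hk⟩)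

lemma QQ_congr {m m' k k' : ℕ} (h : m * (r + 1) + k ≤ M) (hk : k ≤ r)
    (h' : m' * (r + 1) + k' ≤ M) (hk' : k' ≤ r) (e1 : m = m') (e2 : k = k') :
    (QQ ha hj m k h hk : Tgt r M) = QQ ha hj m' k' h' hk' := by
  subst e1
  subst e2
  rfl

lemma div_mod_le (s : ℕ) (h : s ≤ M) : s / (r + 1) * (r + 1) + s % (r + 1) ≤ M := by
  rw [mul_comm, Nat.div_add_mod]
  exact h

/-- the vertex at distance `s` -/
def PP (s : ℕ) (h : s ≤ M) : Tgt r M :=
  QQ ha hj (s / (r + 1)) (s % (r + 1)) (div_mod_le s h) (Nat.lt_succ_iff.1 (Nat.mod_lt _ (by omega)))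

lemma PP_eq {m k : ℕ} (h : m * (r + 1) + k ≤ M) (hk : k ≤ r) :
    (PP ha hj (m * (r + 1) + k) h : Tgt r M) = QQ ha hj m k h hk := by
  unfold PP
  refine QQ_congr ha hj _ _ _ _ ?_ ?_
  · rw [mul_comm, Nat.mul_add_div (by omega), Nat.div_eq_of_lt (by omega)]
    rfl
  · rw [Nat.mul_add_mod_self_right, Nat.mod_eq_of_lt (by omega)]

lemma PP_zero (h : 0 ≤ M) : (PP ha hj 0 h : Tgt r M) = Sum.inl ⟨a, by
    show a < M + M * M * M
    omega⟩ := by
  have := PP_eq (r := r) ha hj (m := 0) (k := 0) (by omega) (by omega)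
  simp only [zero_mul, zero_add] at this
  rw [this]
  rfl

lemma PP_step (s : ℕ) (h : s + 1 ≤ M) :
    subStep r (cmp (LL M)) (PP ha hj s (by omega)) (PP ha hj (s + 1) h) := by
  obtain ⟨m, k, hk, rfl⟩ : ∃ m k, k ≤ r ∧ s = m * (r + 1) + k :=
    ⟨s / (r + 1), s % (r + 1), Nat.lt_succ_iff.1 (Nat.mod_lt _ (by omega)), by
      rw [mul_comm, Nat.div_add_mod]⟩
  rw [PP_eq ha hj (by omega) hk]
  by_cases hkr : k = r
  · have e1 : m * (r + 1) + k + 1 = (m + 1) * (r + 1) + 0 := by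
      rw [add_mul, hkr]
      omega
    have e2 : (PP ha hj (m * (r + 1) + k + 1) h : Tgt r M) =
        QQ ha hj (m + 1) 0 (e1 ▸ h) (by omega) := by
      rw [← PP_eq ha hj (m := m + 1) (k := 0) (e1 ▸ h) (by omega)]
      congr 1
    rw [e2]
    rcases k with _ | k
    · refine ⟨hkr.symm, ?_, ?_⟩
      · exact wN_step ha
      · intro h'
        exact absurd (Fin.mk.inj h') (wN_step ha).ne
    · exact ⟨rfl, hkr⟩
  · have e3 : (PP ha hj (m * (r + 1) + k + 1) h : Tgt r M) =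
        QQ ha hj m (k + 1) h (by omega) := PP_eq ha hj (m := m) (k := k + 1) h (by omega)
    rw [e3]
    rcases k with _ | k
    · exact ⟨rfl, rfl⟩
    · exact ⟨rfl, rfl⟩

end

lemma PP_inj {r M a j a' j' : ℕ} (ha : a < M) (hj : j < M) (ha' : a' < M) (hj' : j' < M)
    {s s' : ℕ} (h : s ≤ M) (h' : s' ≤ M) (he : (PP ha hj s h : Tgt r M) = PP ha' hj' s' h') :
    a = a' ∧ s = s' ∧ (s = 0 ∨ j = j') := by
  obtain ⟨m, k, hk, rfl⟩ : ∃ m k, k ≤ r ∧ s = m * (r + 1) + k :=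
    ⟨s / (r + 1), s % (r + 1), Nat.lt_succ_iff.1 (Nat.mod_lt _ (by omega)), by
      rw [mul_comm, Nat.div_add_mod]⟩
  obtain ⟨m', k', hk', rfl⟩ : ∃ m k, k ≤ r ∧ s' = m * (r + 1) + k :=
    ⟨s' / (r + 1), s' % (r + 1), Nat.lt_succ_iff.1 (Nat.mod_lt _ (by omega)), by
      rw [mul_comm, Nat.div_add_mod]⟩
  rw [PP_eq ha hj h hk, PP_eq ha' hj' h' hk'] at he
  have hm : m ≤ M := by
    have : m * 1 ≤ m * (r + 1) := Nat.mul_le_mul_left _ (by omega)
    omega
  have hm' : m' ≤ M := by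
    have : m' * 1 ≤ m' * (r + 1) := Nat.mul_le_mul_left _ (by omega)
    omega
  rcases k with _ | k <;> rcases k' with _ | k'
  · have h1 : wN M a j m = wN M a' j' m' := Fin.mk.inj (Sum.inl_injective he)
    obtain ⟨h2, rfl, h3⟩ := wN_inj ha ha' hj hj' hm hm' h1
    refine ⟨h2, rfl, ?_⟩
    rcases h3 with rfl | h3
    · exact Or.inl (by omega)
    · exact Or.inr h3
  · simp [QQ] at he
  · simp [QQ] at he
  · have h0 := Sum.inr_injective he
    have hkk : k = k' := Fin.mk.inj (congrArg Prod.snd h0)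
    have h1 : wN M a j m = wN M a' j' m' :=
      Fin.mk.inj (congrArg (fun z : EdgeOf (cmp (LL M)) × Fin r => z.1.1.1) h0)
    have h2 : wN M a j (m + 1) = wN M a' j' (m' + 1) :=
      Fin.mk.inj (congrArg (fun z : EdgeOf (cmp (LL M)) × Fin r => z.1.1.2) h0)
    have hm1 : m + 1 ≤ M := by
      have : m * 1 ≤ m * (r + 1) := Nat.mul_le_mul_left _ (by omega)
      omega
    have hm1' : m' + 1 ≤ M := by
      have : m' * 1 ≤ m' * (r + 1) := Nat.mul_le_mul_left _ (by omega)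
      omega
    obtain ⟨h3, h4, h5⟩ := wN_inj ha ha' hj hj' hm1 hm1' h2
    obtain rfl : m = m' := by omega
    subst hkk
    exact ⟨h3, rfl, Or.inr (h5.resolve_left (by omega))⟩

/-- the map from a part of the stars to the subdivision -/
def toSub (r M : ℕ) : Fin M × Option (Fin M × Fin M) → Tgt r M
  | (a, none) => Sum.inl ⟨a, by
      have := a.2
      show (a : ℕ) < M + M * M * M
      omega⟩
  | (a, some (j, t)) => PP a.2 j.2 ((t : ℕ) + 1) t.2

lemma toSub_inj (r M : ℕ) : Function.Injective (toSub r M) := by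
  rintro ⟨a, x⟩ ⟨a', x'⟩ h
  rcases x with _ | ⟨j, t⟩ <;> rcases x' with _ | ⟨j', t'⟩
  · have h1 : (a : ℕ) = a' := Fin.mk.inj (Sum.inl_injective h)
    rw [Fin.ext h1]
  · have h1 : (PP a.2 j'.2 0 (Nat.zero_le _) : Tgt r M) = PP a'.2 j'.2 ((t' : ℕ) + 1) t'.2 := by
      rw [PP_zero]
      exact h
    have := (PP_inj _ _ _ _ _ _ h1).2.1
    omega
  · have h1 : (PP a.2 j.2 ((t : ℕ) + 1) t.2 : Tgt r M) = PP a'.2 j.2 0 (Nat.zero_le _) := by
      rw [PP_zero]
      exact h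
    have := (PP_inj _ _ _ _ _ _ h1).2.1
    omega
  · have h1 : (PP a.2 j.2 ((t : ℕ) + 1) t.2 : Tgt r M) = PP a'.2 j'.2 ((t' : ℕ) + 1) t'.2 := h
    obtain ⟨h2, h3, h4⟩ := PP_inj _ _ _ _ _ _ h1
    rw [Fin.ext h2, Fin.ext (Nat.succ_injective h3), Fin.ext (h4.resolve_left (by omega))]

/-- the inclusion of the part -/
def inc (M : ℕ) (x : Fin M × Option (Fin M × Fin M)) : ℕ × Option (ℕ × ℕ) :=
  ((x.1 : ℕ), x.2.map (fun y => ((y.1 : ℕ), (y.2 : ℕ))))

lemma toSub_step (r M : ℕ) (x y : Fin M × Option (Fin M × Fin M)) (h1 : x.1 = y.1)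
    (h2 : starStep (inc M x).2 (inc M y).2) :
    subStep r (cmp (LL M)) (toSub r M x) (toSub r M y) := by
  obtain ⟨a, x⟩ := x
  obtain ⟨a', y⟩ := y
  obtain rfl : a = a' := h1
  rcases x with _ | ⟨j, t⟩ <;> rcases y with _ | ⟨j', t'⟩
  · exact absurd h2 id
  · have h3 : (t' : ℕ) = 0 := h2
    have h4 := PP_step (r := r) a.2 j'.2 0 (by have := a.2; omega)
    rw [PP_zero] at h4
    have h5 : (PP a.2 j'.2 ((t' : ℕ) + 1) t'.2 : Tgt r M) = PP a.2 j'.2 (0 + 1)
        (by have := a.2; omega) := by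
      congr 1
      omega
    show subStep r (cmp (LL M)) _ (PP a.2 j'.2 ((t' : ℕ) + 1) t'.2)
    rw [h5]
    exact h4
  · exact absurd h2 id
  · obtain ⟨h3, h4⟩ : (j : ℕ) = j' ∧ (t' : ℕ) = t + 1 := h2
    obtain rfl : j = j' := Fin.ext h3
    have h5 := PP_step (r := r) a.2 j.2 ((t : ℕ) + 1) (by have := t'.2; omega)
    have h6 : (PP a.2 j.2 ((t' : ℕ) + 1) t'.2 : Tgt r M) = PP a.2 j.2 ((t : ℕ) + 1 + 1)
        (by have := t'.2; omega) := by
      congr 1
      omega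
    show subStep r (cmp (LL M)) (PP a.2 j.2 ((t : ℕ) + 1) t.2) (PP a.2 j.2 ((t' : ℕ) + 1) t'.2)
    rw [h6]
    exact h5

/-- finitely many points of the stars lie in a finite part -/
lemma exists_inc {n : ℕ} (f : Fin n → ℕ × Option (ℕ × ℕ)) :
    ∃ (M : ℕ) (f' : Fin n → Fin M × Option (Fin M × Fin M)), ∀ x, inc M (f' x) = f x := by
  let b : Fin n → ℕ := fun x => (f x).1 + ((f x).2.elim 0 (fun y => y.1 + y.2)) + 1
  let M := ∑ x, b x
  have hM : ∀ x, b x ≤ M := fun x => Finset.single_le_sum (f := b) (fun _ _ => Nat.zero_le _)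
    (Finset.mem_univ x)
  have h : ∀ x, ∃ y : Fin M × Option (Fin M × Fin M), inc M y = f x := by
    intro x
    have h1 := hM x
    rcases hx : f x with ⟨a, _ | ⟨j, t⟩⟩
    · have h2 : b x = a + 0 + 1 := by simp only [b, hx]; rfl
      exact ⟨(⟨a, by omega⟩, none), rfl⟩
    · have h2 : b x = a + (j + t) + 1 := by simp only [b, hx]; rfl
      exact ⟨(⟨a, by omega⟩, some (⟨j, by omega⟩, ⟨t, by omega⟩)), rfl⟩
  choose f' hf' using h
  exact ⟨M, f', hf'⟩

theorem dense_stars {K : ∀ n : ℕ, Str 1 (Fin n) → Prop} (hM : Monotone K) (hD : SomewhereDense K)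
    {n : ℕ} (R : Str 1 (Fin n)) (hR : Pool.Agent.Helper20.FS.Kind.graph.Is R)
    (h : Contains Pool.Agent.Helper20.FS.Kind.graph R stars) : K n R := by
  obtain ⟨f, hf, hfR⟩ := h
  obtain ⟨M, f', hf'⟩ := exists_inc f
  obtain ⟨r, hr⟩ := hD
  obtain ⟨N, G, hK, e, he⟩ := hr (LL M)
  refine hM n N R G hK hR ⟨fun x => e.symm (toSub r M (f' x)), ?_, ?_⟩
  · intro x y hxy
    apply hf
    rw [← hf', ← hf', toSub_inj r M (e.symm.injective hxy)]
  · intro x y hxy
    show G 0 (e.symm (toSub r M (f' x))) (e.symm (toSub r M (f' y)))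
    rw [he, Equiv.apply_symm_apply, Equiv.apply_symm_apply]
    obtain ⟨h1, h2⟩ := hfR x y hxy
    rw [← hf', ← hf'] at h1 h2
    have h3 : (f' x).1 = (f' y).1 := Fin.ext h1
    rcases h2 with h2 | h2
    · exact Or.inl (toSub_step r M _ _ h3 h2)
    · exact Or.inr (toSub_step r M _ _ h3.symm h2)

end Pool.Agent.Helper80.EX
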