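import Pool.Agent.Helper80.EX.Defs
import Pool.Agent.Helper20.FS.Relat

/-!
# The conditions on the graph are definable
-/

set_option autoImplicit false

namespace Pool.Agent.Helper80.EX

open FirstOrder FirstOrder.Language Pool.Agent.Helper20.Spectra Pool.Agent.Helper20.OP
  Pool.Agent.Helper20.FS Pool.Agent.Helper20.EX

variable {b A j : ℕ} {U V : Type}

instance : Finite (W b A) := by
  have e : W b A ≃ Fin b ⊕ Σ (i : Fin b) (l : Fin 3), Fin (len A i l) :=
    { toFun := fun w => match w with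
        | .cen i => Sum.inl i
        | .leg i l t h => Sum.inr ⟨i, l, ⟨t, h⟩⟩
      invFun := fun s => match s with
        | Sum.inl i => .cen i
        | Sum.inr ⟨i, l, ⟨t, h⟩⟩ => .leg i l t h
      left_inv := by rintro (i | ⟨i, l, t, h⟩) <;> rfl
      right_inv := by rintro (i | ⟨i, l, ⟨t, h⟩⟩) <;> rfl }
  exact Finite.of_equiv _ e.symm

lemma isU_def : Def1 1 (fun V R x => isU (V := V) R x) := by
  refine Def.exTuple 4 (P := fun V R v p => Function.Injective p ∧ ∀ i, R 0 (v 0) (p i)) ?_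
  refine Def.and ?_ ?_
  · refine (Def.all_fin (γ := Fin 4) (fun i => Def.all_fin (γ := Fin 4) (fun i' =>
      (Def.eq (Fin.natAdd 1 i) (Fin.natAdd 1 i')).imp (Def.const (i = i'))))).congr
      (fun V R v => Iff.rfl)
  · exact Def.all_fin (γ := Fin 4) (fun i => Def.rel 0 (Fin.castAdd 4 0) (Fin.natAdd 1 i))

/-- the conditions on an embedding are definable -/
lemma IsGad_def {r : ℕ} (x : Fin r) (z : W b A → Fin r) (g : Fin b → Fin r) :
    Def 1 r (fun V R v => IsGad R (v x) (fun w => v (z w)) (fun i => v (g i))) := by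
  have h1 : Def 1 r (fun V _ v => Function.Injective (fun w => v (z w))) :=
    (Def.all_fin (γ := W b A) (fun w => Def.all_fin (γ := W b A) (fun w' =>
      (Def.eq (z w) (z w')).imp (Def.const (w = w'))))).congr (fun V R v => Iff.rfl)
  have h2 : Def 1 r (fun V R v => isU R (v x)) := isU_def.app x
  have h3 : Def 1 r (fun V R v => ∀ i, isU R (v (g i))) := Def.all_fin (fun i => isU_def.app (g i))
  have h4 : Def 1 r (fun V R v => ∀ w, ∀ y : V, (R 0 (v (z w)) y ↔
      (∃ w', wAdj w w' ∧ y = v (z w')) ∨ (∃ i, isEnd 0 i w ∧ y = v x) ∨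
        (∃ i, isEnd 1 i w ∧ y = v (g i)))) := by
    refine Def.all_fin (fun w => Def.all (P := fun V R v y => (R 0 (v (z w)) y ↔
      (∃ w', wAdj w w' ∧ y = v (z w')) ∨ (∃ i, isEnd 0 i w ∧ y = v x) ∨
        (∃ i, isEnd 1 i w ∧ y = v (g i)))) ?_)
    refine Def.iff (Def.rel 0 (z w).castSucc (Fin.last r)) (Def.or ?_ (Def.or ?_ ?_))
    · exact Def.ex_fin (fun w' => (Def.const (wAdj w w')).and
        (Def.eq (Fin.last r) (z w').castSucc))
    · exact Def.ex_fin (fun i => (Def.const (isEnd 0 i w)).and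
        (Def.eq (Fin.last r) x.castSucc))
    · exact Def.ex_fin (fun i => (Def.const (isEnd 1 i w)).and
        (Def.eq (Fin.last r) (g i).castSucc))
  refine (h1.and (h2.and (h3.and h4))).congr (fun V R v => ?_)
  constructor
  · intro h
    exact ⟨h.inj, h.main, h.tgt, h.adj⟩
  · rintro ⟨a, b, c, d⟩
    exact ⟨a, b, c, d⟩

lemma exGad_def (Q : (V : Type) → V → (W b A → V) → (Fin b → V) → Prop)
    (hQ : ∀ (r : ℕ) (y : Fin r) (z : W b A → Fin r) (g : Fin b → Fin r),
      Def 1 r (fun V _ v => Q V (v y) (fun w => v (z w)) (fun i => v (g i)))) :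
    Def2 1 (fun V R x y => ∃ (z : W b A → V) (g : Fin b → V), IsGad R x z g ∧ Q V y z g) := by
  obtain ⟨m, ⟨e⟩⟩ : ∃ m, Nonempty (W b A ⊕ Fin b ≃ Fin m) := by
    obtain ⟨m, h⟩ := Finite.exists_equiv_fin (W b A ⊕ Fin b)
    exact ⟨m, h⟩
  have h1 : Def 1 2 (fun V R v => ∃ q : Fin m → V, IsGad R (v 0) (fun w => q (e (Sum.inl w)))
      (fun i => q (e (Sum.inr i))) ∧
        Q V (v 1) (fun w => q (e (Sum.inl w))) (fun i => q (e (Sum.inr i)))) := by
    refine Def.exTuple m (P := fun V R v q => IsGad R (v 0) (fun w => q (e (Sum.inl w)))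
      (fun i => q (e (Sum.inr i))) ∧
        Q V (v 1) (fun w => q (e (Sum.inl w))) (fun i => q (e (Sum.inr i)))) ?_
    exact (IsGad_def (Fin.castAdd m 0) (fun w => Fin.natAdd 2 (e (Sum.inl w)))
      (fun i => Fin.natAdd 2 (e (Sum.inr i)))).and (hQ _ (Fin.castAdd m 1)
        (fun w => Fin.natAdd 2 (e (Sum.inl w))) (fun i => Fin.natAdd 2 (e (Sum.inr i))))
  refine h1.congr (fun V R v => ?_)
  constructor
  · rintro ⟨z, g, h⟩
    refine ⟨fun k => Sum.elim z g (e.symm k), ?_⟩
    simpa using h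
  · rintro ⟨q, h⟩
    exact ⟨_, _, h⟩

lemma Gd_def (w : W b A) : Def2 1 (fun V R x y => Gd b A w (V := V) R x y) :=
  exGad_def (fun V y z _ => y = z w) (fun r y z _ => Def.eq y (z w))

lemma Fv_def (i : Fin b) : Def2 1 (fun V R x y => Fv b A i (V := V) R x y) :=
  exGad_def (fun V y _ g => y = g i) (fun r y _ g => Def.eq y (g i))

theorem Code_def {P : ∀ V : Type, Str b V → Prop} (hP : Def0 b P) :
    Def0 1 (fun V R => Code b A j P V R) := by
  have g1 : Def 1 0 (fun V R _ => ∀ (w : W b A) (x : V), isU R x → ∃ y, Gd b A w R x y) := by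
    refine Def.all_fin (fun w => Def.all (P := fun V R _ x => isU R x → ∃ y, Gd b A w R x y)
      ((isU_def.app 0).imp (Def.ex (P := fun V R v y => Gd b A w R (v (Fin.last 0)) y) ?_)))
    exact (Gd_def w).app _ _
  have g2 : Def 1 0 (fun V R _ => ∀ (w : W b A) (x y y' : V),
      Gd b A w R x y → Gd b A w R x y' → y = y') := by
    refine Def.all_fin (fun w => Def.all (P := fun V R _ x => ∀ y y' : V,
      Gd b A w R x y → Gd b A w R x y' → y = y')
      (Def.all (P := fun V R v y => ∀ y' : V,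
      Gd b A w R (v (Fin.last 0)) y → Gd b A w R (v (Fin.last 0)) y' → y = y')
      (Def.all (P := fun V R v y' => 
      Gd b A w R (v 0) (v 1) → Gd b A w R (v 0) y' → (v 1) = y') ?_)))
    exact ((Gd_def w).app _ _).imp (((Gd_def w).app _ _).imp (Def.eq _ _))
  have f1 : Def 1 0 (fun V R _ => ∀ (i : Fin b) (x : V), isU R x → ∃ y, Fv b A i R x y) := by
    refine Def.all_fin (fun w => Def.all (P := fun V R _ x => isU R x → ∃ y, Fv b A w R x y)
      ((isU_def.app 0).imp (Def.ex (P := fun V R v y => Fv b A w R (v (Fin.last 0)) y) ?_)))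
    exact (Fv_def w).app _ _
  have f2 : Def 1 0 (fun V R _ => ∀ (i : Fin b) (x y y' : V),
      Fv b A i R x y → Fv b A i R x y' → y = y') := by
    refine Def.all_fin (fun w => Def.all (P := fun V R _ x => ∀ y y' : V,
      Fv b A w R x y → Fv b A w R x y' → y = y')
      (Def.all (P := fun V R v y => ∀ y' : V,
      Fv b A w R (v (Fin.last 0)) y → Fv b A w R (v (Fin.last 0)) y' → y = y')
      (Def.all (P := fun V R v y' => 
      Fv b A w R (v 0) (v 1) → Fv b A w R (v 0) y' → (v 1) = y') ?_)))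
    exact ((Fv_def w).app _ _).imp (((Fv_def w).app _ _).imp (Def.eq _ _))
  have g3 : Def 1 0 (fun V R _ => ∀ (w w' : W b A) (x x' y : V),
      Gd b A w R x y → Gd b A w' R x' y → x = x' ∧ w = w') := by
    refine Def.all_fin (fun w => Def.all_fin (fun w' => Def.all (P := fun V R _ x => ∀ x' y : V,
      Gd b A w R x y → Gd b A w' R x' y → x = x' ∧ w = w')
      (Def.all (P := fun V R v x' => ∀ y : V,
      Gd b A w R (v (Fin.last 0)) y → Gd b A w' R x' y → (v (Fin.last 0)) = x' ∧ w = w')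
      (Def.all (P := fun V R v y => 
      Gd b A w R (v 0) y → Gd b A w' R (v 1) y → (v 0) = (v 1) ∧ w = w') ?_))))
    exact ((Gd_def w).app _ _).imp (((Gd_def w').app _ _).imp ((Def.eq _ _).and (Def.const _)))
  have rest : Def 1 0 (fun V R _ => Exactly j (fun y => ¬ isU R y ∧
      ∀ (w : W b A) (x : V), ¬ Gd b A w R x y)) := by
    refine Def.exactly j (P := fun V R _ y => ¬ isU R y ∧
      ∀ (w : W b A) (x : V), ¬ Gd b A w R x y) ?_
    refine (isU_def.app _).not.and (Def.all_fin (fun w => Def.all (P := fun V R v x =>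
      ¬ Gd b A w R x (v (Fin.last 0))) ?_))
    exact ((Gd_def w).app _ _).not
  have ne : Def 1 0 (fun V R _ => ∃ x, isU (V := V) R x) :=
    Def.ex (P := fun V R _ x => isU (V := V) R x) (isU_def.app _)
  have val : Def 1 0 (fun V R _ => P {x // isU R x} (fun i x y => Fv b A i R x.1 y.1)) :=
    def_relat hP isU_def (fun i => Fv_def i)
  refine (g1.and (g2.and (g3.and (f1.and (f2.and (rest.and (ne.and val))))))).congr
    (fun V R v => ?_)
  constructor
  · intro h
    exact ⟨h.g1, h.g2, h.g3, h.f1, h.f2, h.rest, h.ne, h.val⟩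
  · rintro ⟨a, b, c, d, e, f, g, h⟩
    exact ⟨a, b, c, d, e, f, g, h⟩

end Pool.Agent.Helper80.EX
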