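import Pool.Agent.Helper80.EX.Uniq
import Pool.Agent.Helper80.EX.DefC
import Pool.Agent.Helper20.OP.Interp

/-!
# The number of vertices of a graph satisfying the conditions
-/

set_option autoImplicit false

namespace Pool.Agent.Helper80.EX

open FirstOrder FirstOrder.Language Pool.Agent.Helper20.Spectra Pool.Agent.Helper20.OP
  Pool.Agent.Helper20.FS Pool.Agent.Helper20.EX

variable {b A j : ℕ} {U V : Type}

theorem code_card {P : ∀ V : Type, Str b V → Prop} (hP : Def0 b P) [Finite V] (R : Str 1 V)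
    (h : Code b A j P V R) :
    ∃ n : ℕ, 1 ≤ n ∧ Nat.card V = (1 + Nat.card (W b A)) * n + j ∧
      ∃ f : Fin b → Fin n → Fin n, P (Fin n) (funStr f) := by
  classical
  obtain ⟨q, hq, hq2⟩ := h.rest
  have hg1 := h.g1
  choose G hG using hg1
  have hf1 := h.f1
  choose F hF using hf1
  have hGU : ∀ (w : W b A) (x y : V), Gd b A w R x y → isU R x ∧ ¬ isU R y := by
    rintro w x y ⟨z, g, hz, rfl⟩
    exact ⟨hz.main, hz.not_isU w⟩
  have hFU : ∀ (i : Fin b) (x y : V), Fv b A i R x y → isU R y := by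
    rintro i x y ⟨z, g, hz, rfl⟩
    exact hz.tgt i
  let Θ : ({x // isU R x} ⊕ W b A × {x // isU R x}) ⊕ Fin j → V := fun s => match s with
    | Sum.inl (Sum.inl x) => x.1
    | Sum.inl (Sum.inr (w, x)) => G w x.1 x.2
    | Sum.inr e => q e
  have hΘ : Function.Bijective Θ := by
    constructor
    · rintro ((x | ⟨w, x⟩) | e) ((x' | ⟨w', x'⟩) | e') hh
      · have : x = x' := Subtype.ext hh
        rw [this]
      · exact absurd (show isU R (G w' x'.1 x'.2) from (show x.1 = G w' x'.1 x'.2 from hh) ▸ x.2)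
          (hGU _ _ _ (hG w' x'.1 x'.2)).2
      · exact absurd x.2 ((show x.1 = q e' from hh) ▸ ((hq2 (q e')).2 ⟨e', rfl⟩).1)
      · exact absurd (show isU R (G w x.1 x.2) from (show G w x.1 x.2 = x'.1 from hh) ▸ x'.2)
          (hGU _ _ _ (hG w x.1 x.2)).2
      · have h1 := hG w x.1 x.2
        have h2 := hG w' x'.1 x'.2
        rw [show G w x.1 x.2 = G w' x'.1 x'.2 from hh] at h1
        obtain ⟨h3, h4⟩ := h.g3 _ _ _ _ _ h1 h2
        have : x = x' := Subtype.ext h3
        rw [this, h4]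
      · exact absurd ((show G w x.1 x.2 = q e' from hh) ▸ hG w x.1 x.2)
          (((hq2 (q e')).2 ⟨e', rfl⟩).2 w x.1)
      · exact absurd x'.2 ((show q e = x'.1 from hh) ▸ ((hq2 (q e)).2 ⟨e, rfl⟩).1)
      · exact absurd ((show G w' x'.1 x'.2 = q e from hh.symm) ▸ hG w' x'.1 x'.2)
          (((hq2 (q e)).2 ⟨e, rfl⟩).2 w' x'.1)
      · rw [hq hh]
    · intro v
      by_cases h1 : isU R v
      · exact ⟨Sum.inl (Sum.inl ⟨v, h1⟩), rfl⟩
      · by_cases h2 : ∃ w x, Gd b A w R x v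
        · obtain ⟨w, x, hx⟩ := h2
          have hU := (hGU _ _ _ hx).1
          exact ⟨Sum.inl (Sum.inr (w, ⟨x, hU⟩)), h.g2 w x _ _ (hG w x hU) hx⟩
        · push Not at h2
          obtain ⟨e, he⟩ := (hq2 v).1 ⟨h1, h2⟩
          exact ⟨Sum.inr e, he⟩
  have hcard := Nat.card_congr (Equiv.ofBijective Θ hΘ)
  rw [Nat.card_sum, Nat.card_sum, Nat.card_prod, Nat.card_fin] at hcard
  let n := Nat.card {x // isU R x}
  have hn : 1 ≤ n := by
    obtain ⟨x, hx⟩ := h.ne
    have : Nonempty {x // isU R x} := ⟨⟨x, hx⟩⟩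
    exact Nat.card_pos
  let e : {x // isU R x} ≃ Fin n := Finite.equivFin _
  refine ⟨n, hn, ?_, fun i a => e ⟨F i (e.symm a).1 (e.symm a).2, hFU _ _ _ (hF i _ _)⟩, ?_⟩
  · rw [← hcard]
    show n + Nat.card (W b A) * n + j = _
    ring
  · have h1 := (Def0.iso hP e _).1 h.val
    refine (Iff.of_eq ?_).1 h1
    congr 1
    funext i x y
    apply propext
    show Fv b A i R (e.symm x).1 (e.symm y).1 ↔
      e ⟨F i (e.symm x).1 (e.symm x).2, hFU _ _ _ (hF i _ _)⟩ = y
    constructor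
    · intro h2
      have h3 := h.f2 i _ _ _ (hF i (e.symm x).1 (e.symm x).2) h2
      have h4 : (⟨F i (e.symm x).1 (e.symm x).2, hFU _ _ _ (hF i _ _)⟩ : {x // isU R x}) =
        e.symm y := Subtype.ext h3
      rw [h4, Equiv.apply_symm_apply]
    · intro h2
      have h4 : e.symm y = ⟨F i (e.symm x).1 (e.symm x).2, hFU _ _ _ (hF i _ _)⟩ := by
        rw [← h2, Equiv.symm_apply_apply]
      rw [h4]
      exact hF i _ _

end Pool.Agent.Helper80.EX
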