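import Pool.Agent.Helper80.EX.Sub
import Pool.Agent.Helper80.EX.Count
import Pool.Agent.Helper20.EX.Unary

/-!
# Rudimentary sets are spectra over every class containing the subdivisions
-/

set_option autoImplicit false

namespace Pool.Agent.Helper80.EX

open FirstOrder FirstOrder.Language Pool.Agent.Helper20.Spectra Pool.Agent.Helper20.OP
  Pool.Agent.Helper20.FS Pool.Agent.Helper20.EX

variable {b A j : ℕ}

/-- the graph of the functions, on `Fin N` -/
theorem code_exists (hb : 4 ≤ b) {P : ∀ V : Type, Str b V → Prop} (hP : Def0 b P) {n N : ℕ}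
    (hn : 1 ≤ n) (hN : N = (1 + Nat.card (W b A)) * n + j) (f : Fin b → Fin n → Fin n)
    (h : P (Fin n) (funStr f)) :
    ∃ (G : Str 1 (Fin N)) (m : ℕ) (R : Str 1 (Fin m)), Pool.Agent.Helper20.FS.Kind.graph.Is R ∧
      IsSubdiv (A + 1) R G ∧ Code b A j P (Fin N) G := by
  have hne : Nonempty (Fin n) := ⟨⟨0, by omega⟩⟩
  obtain ⟨m, R, hR, Φ, hΦ⟩ := gr_subdiv (A := A) (j := j) hb f
  have hcard : Nat.card (Vx (Fin n) b A j) = N := by
    rw [card_vx, Nat.card_fin, hN]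
  let e : Vx (Fin n) b A j ≃ Fin N := (Finite.equivFin _).trans (finCongr hcard)
  refine ⟨fun r x y => gr f r (e.symm x) (e.symm y), m, R, hR, ⟨e.symm.trans Φ, ?_⟩, ?_⟩
  · intro x y
    exact hΦ _ _
  · exact (Def0.iso (Code_def hP) e (gr f)).1 (code_gr hb hP f h)

/-- the edgeless graph -/
lemma edgeless (r n : ℕ) : ∃ (m : ℕ) (R : Str 1 (Fin m)), Pool.Agent.Helper20.FS.Kind.graph.Is R ∧
    IsSubdiv r R (fun _ _ _ => False : Str 1 (Fin n)) := by
  refine ⟨n, fun _ _ _ => False, ⟨fun x h => h, fun x y h => h⟩, ?_⟩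
  let R : Str 1 (Fin n) := fun _ _ _ => False
  have hE : IsEmpty (EdgeOf R × Fin r) := ⟨fun x => x.1.2.2⟩
  refine ⟨(Equiv.sumEmpty (Fin n) (EdgeOf R × Fin r)).symm, fun x y => ?_⟩
  constructor
  · exact False.elim
  · rintro (⟨_, _, h⟩ | ⟨_, _, h⟩) <;> exact h

theorem exists_main {r : ℕ} (hr : 1 ≤ r) {A : Set ℕ} (hA : IsRudimentary A) (h0 : 0 ∉ A) :
    ∃ φ : (binLang 1).Sentence, (∀ (n : ℕ) (R : Str 1 (Fin n)), Models R φ → n ∈ A) ∧
      ∀ n ∈ A, ∃ (G : Str 1 (Fin n)) (m : ℕ) (R : Str 1 (Fin m)),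
        Pool.Agent.Helper20.FS.Kind.graph.Is R ∧ IsSubdiv r R G ∧ Models G φ := by
  obtain ⟨a, rfl⟩ : ∃ a, r = a + 1 := ⟨r - 1, by omega⟩
  obtain ⟨c, hc⟩ : ∃ c, c = 1 + Nat.card (W 11 a) := ⟨_, rfl⟩
  have h1 : ∀ j : Fin c, ∃ P : ∀ V : Type, Str 11 V → Prop, Def0 11 P ∧ ∀ n : ℕ, 1 ≤ n →
      (n ∈ {n : ℕ | 1 ≤ n ∧ (Polynomial.C c * Polynomial.X + Polynomial.C (j : ℕ)).eval n ∈ A} ↔
        ∃ f : Fin 11 → Fin n → Fin n, P (Fin n) (funStr f)) := fun j =>
    rud_unary (hA.preimage _) (fun h => by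
      have := h.1
      omega)
  choose P hP hPA using h1
  have hPA' : ∀ (j : Fin c) (n : ℕ), 1 ≤ n → (c * n + j ∈ A ↔
      ∃ f : Fin 11 → Fin n → Fin n, P j (Fin n) (funStr f)) := by
    intro j n hn
    rw [← hPA j n hn]
    simp [hn]
  have hQ : Def0 1 (fun V R => (∃ j : Fin c, Code 11 a j (P j) V R) ∨
      ∃ j : Fin c, ((j : ℕ) ∈ A ∧ Exactly j (fun _ : V => True))) := by
    refine Def.or (Def.ex_fin (fun j => Code_def (hP j)))
      (Def.ex_fin (fun j => (Def.const ((j : ℕ) ∈ A)).and ?_))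
    exact Def.exactly j (P := fun V _ _ _ => True) (Def.const True)
  obtain ⟨φ, hφ⟩ := hQ.exists_sentence
  refine ⟨φ, ?_, ?_⟩
  · intro n R hR
    rcases (hφ _ _).1 hR with ⟨j, hj⟩ | ⟨j, hj, hj2⟩
    · obtain ⟨n', hn', hcard, hf⟩ := code_card (hP j) R hj
      rw [Nat.card_fin, ← hc] at hcard
      rw [hcard]
      exact (hPA' j n' hn').2 hf
    · rw [exactly_iff] at hj2
      have h2 : Nat.card {x : Fin n // True} = n := by
        rw [Nat.card_congr (Equiv.subtypeUnivEquiv (fun _ => trivial)), Nat.card_fin]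
      rw [h2] at hj2
      rw [hj2]
      exact hj
  · intro n hn
    have hc0 : 0 < c := by omega
    by_cases hlt : n < c
    · obtain ⟨m, R, hR, hsub⟩ := edgeless (a + 1) n
      refine ⟨_, m, R, hR, hsub, (hφ _ _).2 (Or.inr ⟨⟨n, hlt⟩, hn, ?_⟩)⟩
      rw [exactly_iff, Nat.card_congr (Equiv.subtypeUnivEquiv (fun _ => trivial)), Nat.card_fin]
    · have hj : n % c < c := Nat.mod_lt _ hc0
      have hn' : 1 ≤ n / c := (Nat.one_le_div_iff hc0).2 (by omega)
      have hdiv : c * (n / c) + n % c = n := Nat.div_add_mod n c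
      obtain ⟨f, hf⟩ := (hPA' ⟨n % c, hj⟩ (n / c) hn').1 (by
        show c * (n / c) + n % c ∈ A
        rw [hdiv]
        exact hn)
      obtain ⟨G, m, R, hR, hsub, hG⟩ := code_exists (A := a) (j := n % c) (N := n) (by norm_num)
        (hP ⟨n % c, hj⟩) hn' (by rw [← hc]; exact hdiv.symm) f hf
      exact ⟨G, m, R, hR, hsub, (hφ _ _).2 (Or.inl ⟨⟨n % c, hj⟩, hG⟩)⟩

/-- Every rudimentary set of positive integers is a spectrum over every class of graphs which contains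
the `r`-subdivisions of all graphs, for some `r ≥ 1`. -/
theorem hasSub_rud {K : ∀ n : ℕ, Str 1 (Fin n) → Prop} {r : ℕ} (hr : 1 ≤ r) (h : HasSub r K)
    {A : Set ℕ} (hA : IsRudimentary A) (h0 : 0 ∉ A) : SpectrumOver K A := by
  obtain ⟨φ, h1, h2⟩ := exists_main hr hA h0
  refine ⟨φ, fun n => ⟨fun hn => ?_, fun hn => ?_⟩⟩
  · obtain ⟨G, m, R, hR, hsub, hG⟩ := h2 n hn
    refine ⟨?_, G, h m n R G hR hsub, hG⟩
    by_contra h3
    have : n = 0 := by omega
    exact h0 (this ▸ hn)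
  · obtain ⟨_, R, _, hR⟩ := hn
    exact h1 n R hR

lemma step_irrefl (r : ℕ) {n : ℕ} (R : Str 1 (Fin n)) (z : Fin n ⊕ EdgeOf R × Fin r) :
    ¬ subStep r R z z := by
  rcases z with u | ⟨p, k⟩
  · rintro ⟨-, h, -⟩
    exact lt_irrefl _ h
  · rintro ⟨-, h⟩
    omega

/-- the same for the complements -/
theorem hasSub_rud_co {K : ∀ n : ℕ, Str 1 (Fin n) → Prop} {r : ℕ} (hr : 1 ≤ r)
    (h : HasSub r (fun n R => K n (co R)))
    {A : Set ℕ} (hA : IsRudimentary A) (h0 : 0 ∉ A) : SpectrumOver K A := by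
  obtain ⟨φ, h1, h2⟩ := exists_main hr hA h0
  have hco : Def0 1 (fun V R => Models (co R) φ) := by
    refine Def0.interp (fun V R => co R) (fun r => ?_) (Def0.models φ)
    exact (Def.eq 0 1).not.and (Def.rel r 0 1).not
  obtain ⟨ψ, hψ⟩ := hco.exists_sentence
  refine ⟨ψ, fun n => ⟨fun hn => ?_, fun hn => ?_⟩⟩
  · obtain ⟨G, m, R, hR, hsub, hG⟩ := h2 n hn
    refine ⟨?_, co G, h m n R G hR hsub, (hψ _ _).2 ?_⟩
    · by_contra h3
      have : n = 0 := by omega
      exact h0 (this ▸ hn)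
    · have h4 : co (co G) = G := by
        funext r x y
        have hr0 : r = 0 := Subsingleton.elim _ _
        subst hr0
        apply propext
        show (x ≠ y ∧ ¬ (x ≠ y ∧ ¬ G 0 x y)) ↔ G 0 x y
        constructor
        · rintro ⟨h5, h6⟩
          by_contra h7
          exact h6 ⟨h5, h7⟩
        · intro h5
          refine ⟨?_, fun h6 => h6.2 h5⟩
          rintro rfl
          obtain ⟨e, he⟩ := hsub
          rcases (he x x).1 h5 with h6 | h6
          · exact step_irrefl r R _ h6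
          · exact step_irrefl r R _ h6
      rw [h4]
      exact hG
  · obtain ⟨_, R, _, hR⟩ := hn
    exact h1 n (co R) ((hψ _ _).1 hR)

end Pool.Agent.Helper80.EX
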