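import Pool.Agent.Helper20.FS.Defs
import Pool.Agent.Helper20.EX.Un

/-!
# Coding of unary functions in subdivided graphs: definitions

Every element of a structure with `b` unary functions is a main vertex; the element has `b` gadgets,
the `i`-th of which is a tripod with legs of length `len A i 0` (to the element), `len A i 1` (to its
value under the function `i`) and `len A i 2` (pendant).  The graph is an `(A + 1)`-subdivision.
-/

set_option autoImplicit false

namespace Pool.Agent.Helper80.EX

open FirstOrder FirstOrder.Language Pool.Agent.Helper20.Spectra Pool.Agent.Helper20.OP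
  Pool.Agent.Helper20.FS

/-- the number of places of the legs -/
def len (A i : ℕ) (l : Fin 3) : ℕ :=
  if l = 0 then A + 1 else if l = 1 then 2 * A + 3 else (i + 3) * (A + 2)

lemma len_zero (A i : ℕ) : len A i 0 = A + 1 := by simp [len]
lemma len_one (A i : ℕ) : len A i 1 = 2 * A + 3 := by simp [len]
lemma len_two (A i : ℕ) : len A i 2 = (i + 3) * (A + 2) := by simp [len]

lemma len_pos (A i : ℕ) (l : Fin 3) : 0 < len A i l := by
  have h3 : ∀ l : Fin 3, l = 0 ∨ l = 1 ∨ l = 2 := by decide
  rcases h3 l with rfl | rfl | rfl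
  · rw [len_zero]; omega
  · rw [len_one]; omega
  · rw [len_two]; positivity

/-- the places in the gadgets: the centres and the places `t` on the legs `l` -/
inductive W (b A : ℕ) : Type
  | cen (i : Fin b) : W b A
  | leg (i : Fin b) (l : Fin 3) (t : ℕ) (h : t < len A i l) : W b A

variable {b A j : ℕ} {U V : Type}

def wHalf : W b A → W b A → Prop
  | .cen i, .leg i' _ t _ => i = i' ∧ t = 0
  | .leg i l t _, .leg i' l' t' _ => i = i' ∧ l = l' ∧ t' = t + 1
  | _, .cen _ => False

/-- adjacency of places -/
def wAdj (w w' : W b A) : Prop := wHalf w w' ∨ wHalf w' w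

/-- the last place of the leg `l` of the gadget `i` -/
def isEnd (l : Fin 3) (i : Fin b) : W b A → Prop
  | .leg i' l' t _ => i' = i ∧ l' = l ∧ t + 1 = len A i' l'
  | .cen _ => False

/-- at least four neighbours -/
def isU (R : Str 1 V) (x : V) : Prop :=
  ∃ p : Fin 4 → V, Function.Injective p ∧ ∀ i, R 0 x (p i)

/-- `z` is an embedding of the gadgets at `x`, with the values `g` -/
structure IsGad (R : Str 1 V) (x : V) (z : W b A → V) (g : Fin b → V) : Prop where
  inj : Function.Injective z
  main : isU R x
  tgt : ∀ i, isU R (g i)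
  adj : ∀ w y, R 0 (z w) y ↔ (∃ w', wAdj w w' ∧ y = z w') ∨ (∃ i, isEnd 0 i w ∧ y = x) ∨
    (∃ i, isEnd 1 i w ∧ y = g i)

/-- `y` is the place `w` of the gadgets of `x` -/
def Gd (b A : ℕ) (w : W b A) (R : Str 1 V) (x y : V) : Prop :=
  ∃ (z : W b A → V) (g : Fin b → V), IsGad R x z g ∧ y = z w

/-- `y` is the `i`-th value at `x` -/
def Fv (b A : ℕ) (i : Fin b) (R : Str 1 V) (x y : V) : Prop :=
  ∃ (z : W b A → V) (g : Fin b → V), IsGad R x z g ∧ y = g i

/-- vertices: main vertices, places of gadgets, isolated vertices -/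
inductive Vx (U : Type) (b A j : ℕ) : Type
  | main (u : U) : Vx U b A j
  | gad (u : U) (w : W b A) : Vx U b A j
  | iso (e : Fin j) : Vx U b A j

/-- main vertices and places -/
def touch (f : Fin b → U → U) (u u' : U) (w : W b A) : Prop :=
  (∃ i, isEnd 0 i w ∧ u = u') ∨ ∃ i, isEnd 1 i w ∧ u = f i u'

/-- the graph of the unary functions `f` -/
def gr (f : Fin b → U → U) : Str 1 (Vx U b A j) := fun _ x y => match x, y with
  | .gad u w, .gad u' w' => u = u' ∧ wAdj w w'
  | .main u, .gad u' w => touch f u u' w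
  | .gad u' w, .main u => touch f u u' w
  | _, _ => False

/-- the conditions on the graph, `P` being the condition on the coded structure -/
structure Code (b A j : ℕ) (P : ∀ V : Type, Str b V → Prop) (V : Type) (R : Str 1 V) : Prop where
  g1 : ∀ (w : W b A) (x : V), isU R x → ∃ y, Gd b A w R x y
  g2 : ∀ (w : W b A) (x y y' : V), Gd b A w R x y → Gd b A w R x y' → y = y'
  g3 : ∀ (w w' : W b A) (x x' y : V), Gd b A w R x y → Gd b A w' R x' y → x = x' ∧ w = w'
  f1 : ∀ (i : Fin b) (x : V), isU R x → ∃ y, Fv b A i R x y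
  f2 : ∀ (i : Fin b) (x y y' : V), Fv b A i R x y → Fv b A i R x y' → y = y'
  rest : Exactly j (fun y => ¬ isU R y ∧ ∀ (w : W b A) (x : V), ¬ Gd b A w R x y)
  ne : ∃ x, isU R x
  val : P {x // isU R x} (fun i x y => Fv b A i R x.1 y.1)

end Pool.Agent.Helper80.EX
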