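import Pool.Agent.Helper80.EX.Uniq
import Pool.Agent.Helper20.OP.Interp

/-!
# The graph of the functions satisfies the conditions
-/

set_option autoImplicit false

namespace Pool.Agent.Helper80.EX

open FirstOrder FirstOrder.Language Pool.Agent.Helper20.Spectra Pool.Agent.Helper20.OP
  Pool.Agent.Helper20.FS Pool.Agent.Helper20.EX

variable {b A j : ℕ} {U V : Type}

lemma gr_gad (f : Fin b → U → U) (u : U) (w : W b A) (y : Vx U b A j) :
    gr f 0 (.gad u w) y ↔ (∃ w', wAdj w w' ∧ y = .gad u w') ∨ (∃ i, isEnd 0 i w ∧ y = .main u) ∨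
      (∃ i, isEnd 1 i w ∧ y = .main (f i u)) := by
  rcases y with u' | ⟨u', w'⟩ | e
  · show touch f u' u w ↔ _
    constructor
    · rintro (⟨i, hi, rfl⟩ | ⟨i, hi, rfl⟩)
      · exact Or.inr (Or.inl ⟨i, hi, rfl⟩)
      · exact Or.inr (Or.inr ⟨i, hi, rfl⟩)
    · rintro (⟨w', _, h⟩ | ⟨i, hi, h⟩ | ⟨i, hi, h⟩)
      · exact absurd h (by simp)
      · exact Or.inl ⟨i, hi, by simpa using h⟩
      · exact Or.inr ⟨i, hi, by simpa using h⟩
  · show (u = u' ∧ wAdj w w') ↔ _
    constructor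
    · rintro ⟨rfl, h⟩
      exact Or.inl ⟨w', h, rfl⟩
    · rintro (⟨w'', h1, h⟩ | ⟨i, hi, h⟩ | ⟨i, hi, h⟩)
      · simp only [Vx.gad.injEq] at h
        obtain ⟨rfl, rfl⟩ := h
        exact ⟨rfl, h1⟩
      · exact absurd h (by simp)
      · exact absurd h (by simp)
  · show False ↔ _
    simp

lemma gr_iso (f : Fin b → U → U) (e : Fin j) (y : Vx U b A j) : ¬ gr f 0 (.iso e) y := by
  rcases y with u' | ⟨u', w'⟩ | e' <;> exact id

lemma main_isU (hb : 4 ≤ b) (f : Fin b → U → U) (u : U) :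
    isU (gr f) (.main u : Vx U b A j) := by
  refine ⟨fun e => .gad u (.leg (Fin.castLE hb e) 0 (len A (Fin.castLE hb e) 0 - 1)
    (by have := len_pos A (Fin.castLE hb e) 0; omega)), ?_, ?_⟩
  · intro e e' he
    simp only [Vx.gad.injEq, W.leg.injEq] at he
    exact Fin.castLE_injective hb he.2.1
  · intro e
    refine Or.inl ⟨Fin.castLE hb e, ⟨rfl, rfl, ?_⟩, rfl⟩
    have := len_pos A (Fin.castLE hb e) 0
    omega

lemma canon (hb : 4 ≤ b) (f : Fin b → U → U) (u : U) :
    IsGad (gr f) (.main u : Vx U b A j) (fun w => .gad u w) (fun i => .main (f i u)) where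
  inj := fun w w' h => by simpa using h
  main := main_isU hb f u
  tgt := fun i => main_isU hb f (f i u)
  adj := fun w y => gr_gad f u w y

lemma isU_iff (hb : 4 ≤ b) (f : Fin b → U → U) (v : Vx U b A j) :
    isU (gr f) v ↔ ∃ u, v = .main u := by
  constructor
  · intro h
    rcases v with u | ⟨u, w⟩ | e
    · exact ⟨u, rfl⟩
    · exact absurd h ((canon hb f u).not_isU w)
    · obtain ⟨p, _, hp⟩ := h
      exact absurd (hp 0) (gr_iso f e _)
  · rintro ⟨u, rfl⟩
    exact main_isU hb f u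

/-- every embedding of the gadgets is the obvious one -/
lemma gad_unique (hb : 4 ≤ b) (f : Fin b → U → U) {x : Vx U b A j} {z : W b A → Vx U b A j}
    {g : Fin b → Vx U b A j} (h : IsGad (gr f) x z g) :
    ∃ u, x = .main u ∧ (∀ w, z w = .gad u w) ∧ ∀ i, g i = .main (f i u) := by
  have key : ∀ i : Fin b, ∃ u, x = .main u ∧ g i = .main (f i u) ∧ z (.cen i) = .gad u (.cen i) ∧
      ∀ l t ht, z (.leg i l t ht) = .gad u (.leg i l t ht) := by
    intro i
    have h1 : ∃ u i', z (.cen i) = .gad u (.cen i') := by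
      rcases hz : z (.cen i) with u | ⟨u, w⟩ | e
      · exact absurd ((isU_iff hb f _).2 ⟨u, hz⟩) (h.not_isU _)
      · rcases w with i' | ⟨i', l, t, ht⟩
        · exact ⟨u, i', rfl⟩
        · exfalso
          refine (canon hb f u).leg_two i' l t ht
            (fun e => z (.leg i e 0 (len_pos A i e))) ?_ ?_
          · intro e e' he
            have := h.inj he
            simp only [W.leg.injEq, true_and, and_true] at this
            exact this
          · intro e
            rw [← hz]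
            exact (h.cen_nb i _).2 ⟨e, rfl⟩
      · have := (h.cen_nb i (z (.leg i 0 0 (len_pos A i 0)))).2 ⟨0, rfl⟩
        rw [hz] at this
        exact absurd this (gr_iso f e _)
    obtain ⟨u, i', hu⟩ := h1
    obtain ⟨rfl, h2, h3, h4⟩ := compare h (canon hb f u) hu
    exact ⟨u, h2, h3, hu, fun l t ht => h4 l t ht ht⟩
  obtain ⟨u, hu, _⟩ := key ⟨0, by omega⟩
  have key2 : ∀ i : Fin b, g i = .main (f i u) ∧ z (.cen i) = .gad u (.cen i) ∧
      ∀ l t ht, z (.leg i l t ht) = .gad u (.leg i l t ht) := by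
    intro i
    obtain ⟨u', hu', h'⟩ := key i
    rw [hu] at hu'
    simp only [Vx.main.injEq] at hu'
    rw [hu']
    exact h'
  refine ⟨u, hu, ?_, fun i => (key2 i).1⟩
  rintro (i | ⟨i, l, t, ht⟩)
  · exact (key2 i).2.1
  · exact (key2 i).2.2 l t ht

lemma Gd_iff (hb : 4 ≤ b) (f : Fin b → U → U) (w : W b A) (x y : Vx U b A j) :
    Gd b A w (gr f) x y ↔ ∃ u, x = .main u ∧ y = .gad u w := by
  constructor
  · rintro ⟨z, g, h, rfl⟩
    obtain ⟨u, hu, hz, _⟩ := gad_unique hb f h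
    exact ⟨u, hu, hz w⟩
  · rintro ⟨u, rfl, rfl⟩
    exact ⟨_, _, canon hb f u, rfl⟩

lemma Fv_iff (hb : 4 ≤ b) (f : Fin b → U → U) (i : Fin b) (x y : Vx U b A j) :
    Fv b A i (gr f) x y ↔ ∃ u, x = .main u ∧ y = .main (f i u) := by
  constructor
  · rintro ⟨z, g, h, rfl⟩
    obtain ⟨u, hu, _, hg⟩ := gad_unique hb f h
    exact ⟨u, hu, hg i⟩
  · rintro ⟨u, rfl, rfl⟩
    exact ⟨_, _, canon hb f u, rfl⟩

theorem code_gr (hb : 4 ≤ b) {P : ∀ V : Type, Str b V → Prop} (hP : Def0 b P) [Nonempty U]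
    (f : Fin b → U → U) (h : P U (funStr f)) : Code b A j P (Vx U b A j) (gr f) where
  g1 := by
    intro w x hx
    obtain ⟨u, rfl⟩ := (isU_iff hb f x).1 hx
    exact ⟨.gad u w, (Gd_iff hb f w _ _).2 ⟨u, rfl, rfl⟩⟩
  g2 := by
    intro w x y y' h1 h2
    obtain ⟨u, rfl, rfl⟩ := (Gd_iff hb f w _ _).1 h1
    obtain ⟨u', h3, rfl⟩ := (Gd_iff hb f w _ _).1 h2
    simp only [Vx.main.injEq] at h3
    rw [h3]
  g3 := by
    intro w w' x x' y h1 h2
    obtain ⟨u, rfl, rfl⟩ := (Gd_iff hb f w _ _).1 h1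
    obtain ⟨u', rfl, h3⟩ := (Gd_iff hb f w' _ _).1 h2
    simp only [Vx.gad.injEq] at h3
    obtain ⟨rfl, rfl⟩ := h3
    exact ⟨rfl, rfl⟩
  f1 := by
    intro i x hx
    obtain ⟨u, rfl⟩ := (isU_iff hb f x).1 hx
    exact ⟨.main (f i u), (Fv_iff hb f i _ _).2 ⟨u, rfl, rfl⟩⟩
  f2 := by
    intro i x y y' h1 h2
    obtain ⟨u, rfl, rfl⟩ := (Fv_iff hb f i _ _).1 h1
    obtain ⟨u', h3, rfl⟩ := (Fv_iff hb f i _ _).1 h2
    simp only [Vx.main.injEq] at h3
    rw [h3]
  rest := by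
    refine ⟨fun e => .iso e, fun e e' h => by simpa using h, ?_⟩
    intro v
    constructor
    · rintro ⟨h1, h2⟩
      rcases v with u | ⟨u, w⟩ | e
      · exact absurd (main_isU hb f u) h1
      · exact absurd ((Gd_iff hb f w _ _).2 ⟨u, rfl, rfl⟩) (h2 w (.main u))
      · exact ⟨e, rfl⟩
    · rintro ⟨e, rfl⟩
      refine ⟨fun h1 => ?_, fun w x h1 => ?_⟩
      · obtain ⟨u, hu⟩ := (isU_iff hb f _).1 h1
        exact absurd hu (by simp)
      · obtain ⟨u, _, hu⟩ := (Gd_iff hb f w _ _).1 h1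
        exact absurd hu (by simp)
  ne := by
    obtain ⟨u⟩ := ‹Nonempty U›
    exact ⟨.main u, main_isU hb f u⟩
  val := by
    let e : U ≃ {x : Vx U b A j // isU (gr f) x} :=
      Equiv.ofBijective (fun u => ⟨.main u, main_isU hb f u⟩) ⟨by
        intro u u' h
        simpa using h, by
        rintro ⟨x, hx⟩
        obtain ⟨u, rfl⟩ := (isU_iff hb f x).1 hx
        exact ⟨u, rfl⟩⟩
    have h1 := (Def0.iso hP e (funStr f)).1 h
    have h2 : (fun (r : Fin b) (x y : {x : Vx U b A j // isU (gr f) x}) =>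
        funStr f r (e.symm x) (e.symm y)) = fun i x y => Fv b A i (gr f) x.1 y.1 := by
      funext i x y
      obtain ⟨u, rfl⟩ := e.surjective x
      obtain ⟨u', rfl⟩ := e.surjective y
      apply propext
      rw [Equiv.symm_apply_apply, Equiv.symm_apply_apply]
      show f i u = u' ↔ Fv b A i (gr f) (.main u) (.main u')
      rw [Fv_iff hb]
      constructor
      · rintro rfl
        exact ⟨u, rfl, rfl⟩
      · rintro ⟨u'', h3, h4⟩
        simp only [Vx.main.injEq] at h3 h4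
        rw [h3, h4]
    rw [h2] at h1
    exact h1

end Pool.Agent.Helper80.EX
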