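import Pool.Agent.Helper80.EX.Main

/-!
# Spectra with unary functions and spectra over classes containing the subdivisions
-/

set_option autoImplicit false

namespace Pool.Agent.Helper80.EX

open FirstOrder FirstOrder.Language Pool.Agent.Helper20.Spectra Pool.Agent.Helper20.OP
  Pool.Agent.Helper20.FS Pool.Agent.Helper20.EX

/-- sentences about `b` unary functions on `m` elements are coded by sentences about subdivisions with
`c m` vertices -/
theorem exists_mul {r : ℕ} (hr : 1 ≤ r) {b : ℕ} (φ : (binLang b).Sentence) :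
    ∃ (c : ℕ) (ψ : (binLang 1).Sentence), 1 ≤ c ∧
      (∀ (n : ℕ) (R : Str 1 (Fin n)), Models R ψ → ∃ m : ℕ, 1 ≤ m ∧ n = c * m ∧
        ∃ f : Fin b → Fin m → Fin m, Models (funStr f) φ) ∧
      ∀ (m : ℕ), 1 ≤ m → ∀ f : Fin b → Fin m → Fin m, Models (funStr f) φ →
        ∃ (G : Str 1 (Fin (c * m))) (m' : ℕ) (R : Str 1 (Fin m')),
        Pool.Agent.Helper20.FS.Kind.graph.Is R ∧ IsSubdiv r R G ∧ Models G ψ := by
  obtain ⟨a, rfl⟩ : ∃ a, r = a + 1 := ⟨r - 1, by omega⟩
  have hP : Def0 (b + 4) (fun V R => Models (fun i : Fin b => R (Fin.castAdd 4 i)) φ) :=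
    Def0.interp (fun V R i => R (Fin.castAdd 4 i)) (fun i => Def.rel _ 0 1) (Def0.models φ)
  obtain ⟨ψ, hψ⟩ := (Code_def (A := a) (j := 0) hP).exists_sentence
  refine ⟨1 + Nat.card (W (b + 4) a), ψ, by omega, ?_, ?_⟩
  · intro n R hR
    obtain ⟨m, hm, hcard, f, hf⟩ := code_card hP R ((hψ _ _).1 hR)
    rw [Nat.card_fin] at hcard
    exact ⟨m, hm, hcard, fun i => f (Fin.castAdd 4 i), hf⟩
  · intro m hm f hf
    obtain ⟨G, m', R, hR, hsub, hG⟩ := code_exists (A := a) (j := 0)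
      (N := (1 + Nat.card (W (b + 4) a)) * m) (by omega) hP hm rfl
      (Fin.append f (fun (_ : Fin 4) x => x)) (by
        have h1 : (fun i : Fin b => funStr (Fin.append f (fun (_ : Fin 4) x => x))
            (Fin.castAdd 4 i)) = funStr f := by
          funext i x y
          show (Fin.append f (fun (_ : Fin 4) x => x) (Fin.castAdd 4 i) x = y) = (f i x = y)
          rw [Fin.append_left]
        rw [h1]
        exact hf)
    exact ⟨G, m', R, hR, hsub, (hψ _ _).2 hG⟩

/-- For the spectrum `A` of a sentence with unary function symbols and `r ≥ 1` there is `c ≥ 1` such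
that `c A` is a spectrum over every class which contains the `r`-subdivisions of all graphs. -/
theorem hasSub_mul {r : ℕ} (hr : 1 ≤ r) {b : ℕ} (φ : (binLang b).Sentence) :
    ∃ c : ℕ, 1 ≤ c ∧ ∀ K : ∀ n : ℕ, Str 1 (Fin n) → Prop, HasSub r K →
      SpectrumOver K {n : ℕ | ∃ m : ℕ, 1 ≤ m ∧ n = c * m ∧
        ∃ f : Fin b → Fin m → Fin m, Models (funStr f) φ} := by
  obtain ⟨c, ψ, hc, h1, h2⟩ := exists_mul hr φ
  refine ⟨c, hc, fun K hK => ⟨ψ, fun n => ⟨?_, ?_⟩⟩⟩
  · rintro ⟨m, hm, rfl, f, hf⟩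
    obtain ⟨G, m', R, hR, hsub, hG⟩ := h2 m hm f hf
    exact ⟨Nat.mul_pos hc hm, G, hK _ _ _ _ hR hsub, hG⟩
  · rintro ⟨_, R, _, hR⟩
    exact h1 n R hR

end Pool.Agent.Helper80.EX
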