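import Pool.Agent.Helper80.EX.SubOf
import Pool.Agent.Helper80.EX.Model
import Pool.Agent.Helper80.EX.DefC

/-!
# The graph of the functions is a subdivision
-/

set_option autoImplicit false

namespace Pool.Agent.Helper80.EX

open FirstOrder FirstOrder.Language Pool.Agent.Helper20.Spectra Pool.Agent.Helper20.OP
  Pool.Agent.Helper20.FS Pool.Agent.Helper20.EX

variable {b A j : ℕ} {U : Type}

/-- the original vertices -/
inductive Og (U : Type) (b A j : ℕ) : Type
  | main (u : U) : Og U b A j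
  | cen (u : U) (i : Fin b) : Og U b A j
  | mid (u : U) (i : Fin b) (l : Fin 3) (a : ℕ) (h : a * (A + 2) + (A + 1) < len A i l) : Og U b A j
  | iso (e : Fin j) : Og U b A j

/-- the edges -/
structure Sg (U : Type) (b A : ℕ) where
  u : U
  i : Fin b
  l : Fin 3
  a : ℕ
  h : a * (A + 2) < len A i l

lemma three (l : Fin 3) : l = 0 ∨ l = 1 ∨ l = 2 := by
  revert l
  decide

lemma seg_lt {i a k : ℕ} {l : Fin 3} (h : a * (A + 2) < len A i l) (hk : k < A + 1) :
    a * (A + 2) + k < len A i l := by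
  rcases three l with rfl | rfl | rfl
  · rw [len_zero] at *
    have : a = 0 := by
      by_contra hne
      have : 1 * (A + 2) ≤ a * (A + 2) := Nat.mul_le_mul_right _ (Nat.one_le_iff_ne_zero.2 hne)
      omega
    subst this
    omega
  · rw [len_one] at *
    have : a ≤ 1 := by
      by_contra hne
      have : 2 * (A + 2) ≤ a * (A + 2) := Nat.mul_le_mul_right _ (by omega)
      omega
    have : a * (A + 2) ≤ 1 * (A + 2) := Nat.mul_le_mul_right _ this
    omega
  · rw [len_two] at *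
    have h1 : a < i + 3 := Nat.lt_of_mul_lt_mul_right h
    have h2 : (a + 1) * (A + 2) ≤ (i + 3) * (A + 2) := Nat.mul_le_mul_right _ h1
    rw [add_mul] at h2
    omega

lemma dm {a a' k k' : ℕ} (hk : k < A + 2) (hk' : k' < A + 2)
    (h : a * (A + 2) + k = a' * (A + 2) + k') : a = a' ∧ k = k' := by
  have h1 := congrArg (· % (A + 2)) h
  simp only [Nat.mul_add_mod_self_right] at h1
  rw [Nat.mod_eq_of_lt hk, Nat.mod_eq_of_lt hk'] at h1
  subst h1
  exact ⟨Nat.eq_of_mul_eq_mul_right (by omega : 0 < A + 2) (by omega), rfl⟩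

/-- the first end of an edge -/
def Sg.s : Sg U b A → Og U b A j
  | ⟨u, i, _, 0, _⟩ => .cen u i
  | ⟨u, i, l, a + 1, h⟩ => .mid u i l a (by rw [add_mul] at h; omega)

/-- the second end of an edge -/
def Sg.t (f : Fin b → U → U) (e : Sg U b A) : Og U b A j :=
  if h : e.a * (A + 2) + (A + 1) < len A e.i e.l then .mid e.u e.i e.l e.a h
  else if e.l = 0 then .main e.u else .main (f e.i e.u)

/-- the vertices of the subdivision -/
def Th : Og U b A j ⊕ Sg U b A × Fin (A + 1) → Vx U b A j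
  | Sum.inl (.main u) => .main u
  | Sum.inl (.cen u i) => .gad u (.cen i)
  | Sum.inl (.mid u i l a h) => .gad u (.leg i l (a * (A + 2) + (A + 1)) h)
  | Sum.inl (.iso e) => .iso e
  | Sum.inr (⟨u, i, l, a, h⟩, k) => .gad u (.leg i l (a * (A + 2) + k) (seg_lt h k.2))

lemma Th_bij : Function.Bijective (Th : Og U b A j ⊕ Sg U b A × Fin (A + 1) → Vx U b A j) := by
  constructor
  · rintro ((u | ⟨u, i⟩ | ⟨u, i, l, a, h⟩ | e) | ⟨⟨u, i, l, a, h⟩, k⟩)
      ((u' | ⟨u', i'⟩ | ⟨u', i', l', a', h'⟩ | e') | ⟨⟨u', i', l', a', h'⟩, k'⟩) hh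
    all_goals simp only [Th, Vx.main.injEq, Vx.gad.injEq, Vx.iso.injEq, W.cen.injEq, W.leg.injEq,
      reduceCtorEq, and_false] at hh
    · rw [hh]
    · rw [hh.1, hh.2]
    · obtain ⟨rfl, rfl, rfl, h1⟩ := hh
      obtain ⟨rfl, _⟩ := dm (by omega) (by omega) h1
      rfl
    · obtain ⟨_, _, _, h1⟩ := hh
      have h2 := k'.2
      have := (dm (by omega) (by omega) h1).2
      omega
    · rw [hh]
    · obtain ⟨_, _, _, h1⟩ := hh
      have h2 := k.2
      have := (dm (by omega) (by omega) h1).2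
      omega
    · obtain ⟨rfl, rfl, rfl, h1⟩ := hh
      have h2 := k.2
      have h3 := k'.2
      obtain ⟨rfl, h4⟩ := dm (by omega) (by omega) h1
      obtain rfl : k = k' := Fin.ext h4
      rfl
  · rintro (u | ⟨u, (i | ⟨i, l, t, ht⟩)⟩ | e)
    · exact ⟨Sum.inl (.main u), rfl⟩
    · exact ⟨Sum.inl (.cen u i), rfl⟩
    · obtain ⟨a, k, hk, rfl⟩ : ∃ a k, k < A + 2 ∧ t = a * (A + 2) + k :=
        ⟨t / (A + 2), t % (A + 2), Nat.mod_lt _ (by omega), by
          rw [mul_comm]
          exact (Nat.div_add_mod t (A + 2)).symm⟩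
      by_cases h1 : k = A + 1
      · subst h1
        exact ⟨Sum.inl (.mid u i l a ht), rfl⟩
      · exact ⟨Sum.inr (⟨u, i, l, a, by omega⟩, ⟨k, by omega⟩), rfl⟩
    · exact ⟨Sum.inl (.iso e), rfl⟩

/-- the rank of an original vertex -/
def Og.rk : Og U b A j → ℕ
  | .main _ => b + 4
  | .cen _ _ => 0
  | .mid _ _ _ a _ => a + 1
  | .iso _ => 0

lemma rk_lt (f : Fin b → U → U) (e : Sg U b A) :
    (e.s : Og U b A j).rk < (e.t f : Og U b A j).rk := by
  obtain ⟨u, i, l, a, h⟩ := e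
  have h1 : (Sg.s ⟨u, i, l, a, h⟩ : Og U b A j).rk = a := by
    rcases a with _ | a
    · rfl
    · rfl
  rw [h1]
  unfold Sg.t
  have h2 : a < b + 4 := by
    have h3 : a * (A + 2) < (b + 4) * (A + 2) := by
      refine h.trans_le ?_
      have hi := i.2
      rcases three l with rfl | rfl | rfl
      · rw [len_zero]
        nlinarith
      · rw [len_one]
        nlinarith
      · rw [len_two]
        exact Nat.mul_le_mul_right _ (by omega)
    exact Nat.lt_of_mul_lt_mul_right h3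
  split_ifs
  · show a < a + 1
    omega
  · exact h2
  · exact h2

lemma seg_inj (f : Fin b → U → U) (e e' : Sg U b A) (hs : (e.s : Og U b A j) = e'.s)
    (ht : (e.t f : Og U b A j) = e'.t f) : e = e' := by
  obtain ⟨u, i, l, a, h⟩ := e
  obtain ⟨u', i', l', a', h'⟩ := e'
  rcases a with _ | a <;> rcases a' with _ | a'
  · simp only [Sg.s, Og.cen.injEq] at hs
    obtain ⟨rfl, rfl⟩ := hs
    have key : l = l' := by
      have h0 : ¬ (0 * (A + 2) + (A + 1) < len A i 0) := by rw [len_zero]; omega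
      have h1 : 0 * (A + 2) + (A + 1) < len A i 1 := by rw [len_one]; omega
      have h2 : 0 * (A + 2) + (A + 1) < len A i 2 := by rw [len_two]; nlinarith
      rcases three l with rfl | rfl | rfl <;> rcases three l' with rfl | rfl | rfl
      · rfl
      · simp only [Sg.t, dif_neg h0, dif_pos h1, if_true] at ht
        exact absurd ht (by simp)
      · simp only [Sg.t, dif_neg h0, dif_pos h2, if_true] at ht
        exact absurd ht (by simp)
      · simp only [Sg.t, dif_neg h0, dif_pos h1, if_true] at ht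
        exact absurd ht (by simp)
      · rfl
      · simp only [Sg.t, dif_pos h1, dif_pos h2] at ht
        simp only [Og.mid.injEq] at ht
        exact ht.2.2.1
      · simp only [Sg.t, dif_neg h0, dif_pos h2, if_true] at ht
        exact absurd ht (by simp)
      · simp only [Sg.t, dif_pos h1, dif_pos h2] at ht
        simp only [Og.mid.injEq] at ht
        exact ht.2.2.1
      · rfl
    subst key
    rfl
  · simp only [Sg.s, reduceCtorEq] at hs
  · simp only [Sg.s, reduceCtorEq] at hs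
  · simp only [Sg.s, Og.mid.injEq] at hs
    obtain ⟨rfl, rfl, rfl, rfl⟩ := hs
    rfl

/-- vertices as a sum -/
def vxEquiv (U : Type) (b A j : ℕ) : Vx U b A j ≃ (U ⊕ U × W b A) ⊕ Fin j where
  toFun := fun v => match v with
    | .main u => Sum.inl (Sum.inl u)
    | .gad u w => Sum.inl (Sum.inr (u, w))
    | .iso e => Sum.inr e
  invFun := fun s => match s with
    | Sum.inl (Sum.inl u) => .main u
    | Sum.inl (Sum.inr (u, w)) => .gad u w
    | Sum.inr e => .iso e
  left_inv := by rintro (u | ⟨u, w⟩ | e) <;> rfl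
  right_inv := by rintro ((u | ⟨u, w⟩) | e) <;> rfl

instance [Finite U] : Finite (Vx U b A j) := Finite.of_equiv _ (vxEquiv U b A j).symm

lemma card_vx (U : Type) [Finite U] (b A j : ℕ) :
    Nat.card (Vx U b A j) = (1 + Nat.card (W b A)) * Nat.card U + j := by
  rw [Nat.card_congr (vxEquiv U b A j), Nat.card_sum, Nat.card_sum, Nat.card_prod, Nat.card_fin]
  ring

instance [Finite U] : Finite (Og U b A j) :=
  Finite.of_injective (fun o : Og U b A j => (Th (Sum.inl o) : Vx U b A j))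
    (fun _ _ h => Sum.inl_injective (Th_bij.1 h))

lemma gr_symm (f : Fin b → U → U) (x y : Vx U b A j) : gr f 0 x y ↔ gr f 0 y x := by
  rcases x with u | ⟨u, w⟩ | e <;> rcases y with u' | ⟨u', w'⟩ | e'
  · exact Iff.rfl
  · exact Iff.rfl
  · exact Iff.rfl
  · exact Iff.rfl
  · show (u = u' ∧ (wHalf w w' ∨ wHalf w' w)) ↔ (u' = u ∧ (wHalf w' w ∨ wHalf w w'))
    rw [eq_comm, or_comm]
  · exact Iff.rfl
  · exact Iff.rfl
  · exact Iff.rfl
  · exact Iff.rfl

/-- the neighbours of a place on a leg -/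
lemma leg_iff (hb : 4 ≤ b) (f : Fin b → U → U) (u : U) (i : Fin b) (l : Fin 3) (t : ℕ)
    (ht : t < len A i l) (y : Vx U b A j) :
    gr f 0 (.gad u (.leg i l t ht)) y ↔ ((t = 0 ∧ y = .gad u (.cen i)) ∨
      (∃ t' h', t = t' + 1 ∧ y = .gad u (.leg i l t' h')) ∨
      (∃ h', y = .gad u (.leg i l (t + 1) h')) ∨
      (l = 0 ∧ t + 1 = len A i l ∧ y = .main u) ∨ (l = 1 ∧ t + 1 = len A i l ∧ y = .main (f i u))) :=
  (canon hb f u).leg_nb i l t ht y

lemma orig_inner (hb : 4 ≤ b) (f : Fin b → U → U) (o : Og U b A j) (e : Sg U b A)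
    (k : Fin (A + 1)) : gr f 0 (Th (Sum.inr (e, k)) : Vx U b A j) (Th (Sum.inl o)) ↔
      (o = e.s ∧ (k : ℕ) = 0) ∨ (o = e.t f ∧ (k : ℕ) + 1 = A + 1) := by
  obtain ⟨u, i, l, a, h⟩ := e
  have hk := k.2
  show gr f 0 (.gad u (.leg i l (a * (A + 2) + k) (seg_lt h k.2))) (Th (Sum.inl o)) ↔ _
  rw [leg_iff hb]
  constructor
  · rintro (⟨h1, h2⟩ | ⟨t', h', h1, h2⟩ | ⟨h', h2⟩ | ⟨rfl, h1, h2⟩ | ⟨rfl, h1, h2⟩)
    · rcases o with v | ⟨v, i'⟩ | ⟨v, i', l', a', h''⟩ | e'
      all_goals simp only [Th, Vx.gad.injEq, reduceCtorEq, and_false, W.cen.injEq] at h2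
      obtain ⟨rfl, rfl⟩ := h2
      have ha : a = 0 := by
        rcases a with _ | a
        · rfl
        · rw [add_mul] at h1
          omega
      subst ha
      exact Or.inl ⟨rfl, by omega⟩
    · rcases o with v | ⟨v, i'⟩ | ⟨v, i', l', a', h''⟩ | e'
      all_goals simp only [Th, Vx.gad.injEq, reduceCtorEq, and_false, W.leg.injEq] at h2
      obtain ⟨rfl, rfl, rfl, h3⟩ := h2
      have h4 : a * (A + 2) + k = (a' + 1) * (A + 2) + 0 := by
        rw [add_mul]
        omega
      obtain ⟨rfl, h5⟩ := dm (by omega) (by omega) h4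
      exact Or.inl ⟨rfl, h5⟩
    · rcases o with v | ⟨v, i'⟩ | ⟨v, i', l', a', h''⟩ | e'
      all_goals simp only [Th, Vx.gad.injEq, reduceCtorEq, and_false, W.leg.injEq] at h2
      obtain ⟨rfl, rfl, rfl, h3⟩ := h2
      have h4 : a * (A + 2) + (k + 1) = a' * (A + 2) + (A + 1) := by omega
      obtain ⟨rfl, h5⟩ := dm (by omega) (by omega) h4
      refine Or.inr ⟨?_, h5⟩
      simp only [Sg.t, dif_pos h'']
    · rcases o with v | ⟨v, i'⟩ | ⟨v, i', l', a', h''⟩ | e'
      all_goals simp only [Th, Vx.main.injEq, reduceCtorEq] at h2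
      subst h2
      rw [len_zero] at h1
      have h4 : a * (A + 2) + k = 0 * (A + 2) + A := by omega
      obtain ⟨rfl, h5⟩ := dm (by omega) (by omega) h4
      refine Or.inr ⟨?_, by omega⟩
      simp only [Sg.t]
      rw [dif_neg (by rw [len_zero]; omega)]
      simp
    · rcases o with v | ⟨v, i'⟩ | ⟨v, i', l', a', h''⟩ | e'
      all_goals simp only [Th, Vx.main.injEq, reduceCtorEq] at h2
      subst h2
      rw [len_one] at h1
      have h4 : a * (A + 2) + k = 1 * (A + 2) + A := by omega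
      obtain ⟨rfl, h5⟩ := dm (by omega) (by omega) h4
      refine Or.inr ⟨?_, by omega⟩
      simp only [Sg.t]
      rw [dif_neg (by rw [len_one]; omega)]
      simp
  · rintro (⟨rfl, h0⟩ | ⟨rfl, h0⟩)
    · rcases a with _ | a
      · exact Or.inl ⟨by omega, rfl⟩
      · refine Or.inr (Or.inl ⟨a * (A + 2) + (A + 1), by rw [add_mul] at h; omega, ?_, rfl⟩)
        rw [add_mul]
        omega
    · by_cases h1 : a * (A + 2) + (A + 1) < len A i l
      · have e1 : a * (A + 2) + (k : ℕ) + 1 = a * (A + 2) + (A + 1) := by omega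
        refine Or.inr (Or.inr (Or.inl ⟨by rw [e1]; exact h1, ?_⟩))
        simp only [Sg.t, dif_pos h1, Th]
        simp only [e1]
      · have h2 : a * (A + 2) + (k : ℕ) < len A i l := seg_lt h k.2
        rcases three l with rfl | rfl | rfl
        · refine Or.inr (Or.inr (Or.inr (Or.inl ⟨rfl, by omega, ?_⟩)))
          have e1 : (Sg.t f ⟨u, i, 0, a, h⟩ : Og U b A j) = .main u := by
            unfold Sg.t
            rw [dif_neg h1, if_pos rfl]
          rw [e1]
          rfl
        · refine Or.inr (Or.inr (Or.inr (Or.inr ⟨rfl, by omega, ?_⟩)))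
          have e1 : (Sg.t f ⟨u, i, 1, a, h⟩ : Og U b A j) = .main (f i u) := by
            unfold Sg.t
            rw [dif_neg h1, if_neg (by simp)]
          rw [e1]
          rfl
        · exfalso
          rw [len_two] at h1 h
          have h3 : a < i + 3 := Nat.lt_of_mul_lt_mul_right h
          have h4 : (a + 1) * (A + 2) ≤ ((i : ℕ) + 3) * (A + 2) := Nat.mul_le_mul_right _ h3
          rw [add_mul] at h4
          omega

lemma inner_inner (hb : 4 ≤ b) (f : Fin b → U → U) (e : Sg U b A) (k : Fin (A + 1))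
    (e' : Sg U b A) (k' : Fin (A + 1)) :
    gr f 0 (Th (Sum.inr (e, k)) : Vx U b A j) (Th (Sum.inr (e', k'))) ↔
      e = e' ∧ ((k' : ℕ) = k + 1 ∨ (k : ℕ) = k' + 1) := by
  obtain ⟨u, i, l, a, h⟩ := e
  obtain ⟨u', i', l', a', h'⟩ := e'
  have hk := k.2
  have hk' := k'.2
  show gr f 0 (.gad u (.leg i l (a * (A + 2) + k) (seg_lt h k.2)))
    (.gad u' (.leg i' l' (a' * (A + 2) + k') (seg_lt h' k'.2))) ↔ _
  rw [leg_iff hb]
  constructor
  · rintro (⟨h1, h2⟩ | ⟨t', h3, h1, h2⟩ | ⟨h3, h2⟩ | ⟨rfl, h1, h2⟩ | ⟨rfl, h1, h2⟩)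
    · simp at h2
    · simp only [Vx.gad.injEq, W.leg.injEq] at h2
      obtain ⟨rfl, rfl, rfl, h4⟩ := h2
      have h5 : a * (A + 2) + k = a' * (A + 2) + (k' + 1) := by omega
      obtain ⟨rfl, h6⟩ := dm (by omega) (by omega) h5
      exact ⟨rfl, Or.inr h6⟩
    · simp only [Vx.gad.injEq, W.leg.injEq] at h2
      obtain ⟨rfl, rfl, rfl, h4⟩ := h2
      have h5 : a * (A + 2) + (k + 1) = a' * (A + 2) + k' := by omega
      obtain ⟨rfl, h6⟩ := dm (by omega) (by omega) h5
      exact ⟨rfl, Or.inl h6.symm⟩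
    · simp at h2
    · simp at h2
  · rintro ⟨h1, h2⟩
    simp only [Sg.mk.injEq] at h1
    obtain ⟨rfl, rfl, rfl, rfl⟩ := h1
    rcases h2 with h2 | h2
    · refine Or.inr (Or.inr (Or.inl ⟨by
        have := seg_lt h k'.2
        omega, ?_⟩))
      simp only [h2]
      rfl
    · refine Or.inr (Or.inl ⟨a * (A + 2) + k', seg_lt h k'.2, by omega, rfl⟩)

lemma orig_orig (f : Fin b → U → U) (o o' : Og U b A j) :
    ¬ gr f 0 (Th (Sum.inl o) : Vx U b A j) (Th (Sum.inl o')) := by
  have key : ∀ (u v : U) (i : Fin b) (l : Fin 3) (a : ℕ) (h : a * (A + 2) + (A + 1) < len A i l),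
      ¬ touch f v u (.leg i l (a * (A + 2) + (A + 1)) h) := by
    rintro u v i l a h (⟨i', h1, _⟩ | ⟨i', h1, _⟩)
    · obtain ⟨rfl, rfl, h2⟩ : i = i' ∧ l = 0 ∧ a * (A + 2) + (A + 1) + 1 = len A i l := h1
      rw [len_zero] at h2
      omega
    · obtain ⟨rfl, rfl, h2⟩ : i = i' ∧ l = 1 ∧ a * (A + 2) + (A + 1) + 1 = len A i l := h1
      rw [len_one] at h2
      have h3 : a * (A + 2) + (A + 1) = 1 * (A + 2) + A := by omega
      have := (dm (by omega) (by omega) h3).2
      omega
  rcases o with u | ⟨u, i⟩ | ⟨u, i, l, a, h⟩ | e <;>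
    rcases o' with u' | ⟨u', i'⟩ | ⟨u', i', l', a', h'⟩ | e'
  · exact id
  · rintro (⟨i, h1, _⟩ | ⟨i, h1, _⟩) <;> exact h1
  · exact key _ _ _ _ _ _
  · exact id
  · rintro (⟨i, h1, _⟩ | ⟨i, h1, _⟩) <;> exact h1
  · rintro ⟨_, h | h⟩ <;> exact h
  · rintro ⟨_, h | h⟩
    · have := h.2
      omega
    · exact h
  · exact id
  · exact key _ _ _ _ _ _
  · rintro ⟨_, h1 | h1⟩
    · exact h1
    · have := h1.2
      omega
  · rintro ⟨_, h1 | h1⟩
    · have h2 : a' * (A + 2) + (A + 1) = (a + 1) * (A + 2) + 0 := by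
        have := h1.2.2
        rw [add_mul]
        omega
      have := (dm (by omega) (by omega) h2).2
      omega
    · have h2 : a * (A + 2) + (A + 1) = (a' + 1) * (A + 2) + 0 := by
        have := h1.2.2
        rw [add_mul]
        omega
      have := (dm (by omega) (by omega) h2).2
      omega
  · exact id
  · exact id
  · exact id
  · exact id
  · exact id

/-- the graph of the functions is a subdivision -/
theorem gr_subdiv (hb : 4 ≤ b) [Finite U] (f : Fin b → U → U) :
    ∃ (n : ℕ) (R : Str 1 (Fin n)), Pool.Agent.Helper20.FS.Kind.graph.Is R ∧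
      ∃ Φ : Vx U b A j ≃ Fin n ⊕ EdgeOf R × Fin (A + 1),
        ∀ x y, gr f 0 x y ↔ subdiv (A + 1) R 0 (Φ x) (Φ y) := by
  refine subdiv_of (A + 1) (by omega) (gr f) Sg.s (Sg.t f) Og.rk (rk_lt f) (seg_inj f)
    (Equiv.ofBijective Th Th_bij) (orig_orig f) ?_ (orig_inner hb f) (inner_inner hb f)
  intro o e k
  rw [gr_symm]
  exact orig_inner hb f o e k

end Pool.Agent.Helper80.EX
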