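import Pool.Agent.Helper20.EX.Graphs

/-!
# A criterion for subdivisions
-/

set_option autoImplicit false

namespace Pool.Agent.Helper80.EX

open FirstOrder FirstOrder.Language Pool.Agent.Helper20.Spectra Pool.Agent.Helper20.OP
  Pool.Agent.Helper20.FS Pool.Agent.Helper20.EX

/-- a numbering which respects a rank function -/
lemma exists_number {O : Type} [Finite O] (ρ : O → ℕ) :
    ∃ (n : ℕ) (e : O ≃ Fin n), ∀ x y, ρ x < ρ y → e x < e y := by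
  classical
  have := Fintype.ofFinite O
  let n := Fintype.card O
  let g : O ≃ Fin n := Fintype.equivFin O
  have hinj : Function.Injective (fun x => ρ x * n + g x) := by
    intro x y h
    have h' : ρ x * n + (g x : ℕ) = ρ y * n + g y := h
    apply g.injective
    apply Fin.ext
    have h1 := congrArg (· % n) h'
    simp only [Nat.mul_add_mod_self_right] at h1
    rwa [Nat.mod_eq_of_lt (g x).2, Nat.mod_eq_of_lt (g y).2] at h1
  let L : LinearOrder O := LinearOrder.lift' (fun x => ρ x * n + g x) hinj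
  let e := Fintype.orderIsoFinOfCardEq O (rfl : Fintype.card O = n)
  refine ⟨n, e.symm.toEquiv, fun x y h => ?_⟩
  have h1 : x < y := by
    show ρ x * n + g x < ρ y * n + g y
    have h2 : (ρ x + 1) * n ≤ ρ y * n := Nat.mul_le_mul_right _ h
    have h3 := (g x).2
    rw [add_mul] at h2
    omega
  exact (OrderIso.lt_iff_lt e.symm).2 h1

theorem subdiv_of {V O E : Type} [Finite O] (r : ℕ) (hr : 1 ≤ r) (H : Str 1 V) (s t : E → O)
    (ρ : O → ℕ) (hρ : ∀ e, ρ (s e) < ρ (t e))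
    (hinj : ∀ e e', s e = s e' → t e = t e' → e = e') (Θ : O ⊕ E × Fin r ≃ V)
    (hOO : ∀ o o', ¬ H 0 (Θ (Sum.inl o)) (Θ (Sum.inl o')))
    (hOE : ∀ o e (k : Fin r), H 0 (Θ (Sum.inl o)) (Θ (Sum.inr (e, k))) ↔
      (o = s e ∧ (k : ℕ) = 0) ∨ (o = t e ∧ (k : ℕ) + 1 = r))
    (hEO : ∀ o e (k : Fin r), H 0 (Θ (Sum.inr (e, k))) (Θ (Sum.inl o)) ↔
      (o = s e ∧ (k : ℕ) = 0) ∨ (o = t e ∧ (k : ℕ) + 1 = r))
    (hEE : ∀ e (k : Fin r) e' (k' : Fin r), H 0 (Θ (Sum.inr (e, k))) (Θ (Sum.inr (e', k'))) ↔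
      e = e' ∧ ((k' : ℕ) = k + 1 ∨ (k : ℕ) = k' + 1)) :
    ∃ (n : ℕ) (R : Str 1 (Fin n)), Pool.Agent.Helper20.FS.Kind.graph.Is R ∧ ∃ Φ : V ≃ Fin n ⊕ EdgeOf R × Fin r,
      ∀ x y, H 0 x y ↔ subdiv r R 0 (Φ x) (Φ y) := by
  obtain ⟨n, e0, he0⟩ := exists_number ρ
  let R : Str 1 (Fin n) := fun _ u v => ∃ e, (u = e0 (s e) ∧ v = e0 (t e)) ∨
    (v = e0 (s e) ∧ u = e0 (t e))
  have hlt : ∀ e, e0 (s e) < e0 (t e) := fun e => he0 _ _ (hρ e)
  have hR : Pool.Agent.Helper20.FS.Kind.graph.Is R := by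
    refine ⟨?_, ?_⟩
    · rintro x ⟨e, ⟨h1, h2⟩ | ⟨h1, h2⟩⟩
      · have := hlt e
        rw [← h1, ← h2] at this
        exact lt_irrefl _ this
      · have := hlt e
        rw [← h1, ← h2] at this
        exact lt_irrefl _ this
    · rintro x y ⟨e, h | h⟩
      · exact ⟨e, Or.inr h⟩
      · exact ⟨e, Or.inl h⟩
  let S : E ≃ EdgeOf R := Equiv.ofBijective
    (fun e => ⟨(e0 (s e), e0 (t e)), hlt e, e, Or.inl ⟨rfl, rfl⟩⟩) ⟨by
      intro e e' h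
      have h1 : (e0 (s e), e0 (t e)) = (e0 (s e'), e0 (t e')) := congrArg Subtype.val h
      have h2 := Prod.mk.inj h1
      exact hinj e e' (e0.injective h2.1) (e0.injective h2.2), by
      rintro ⟨⟨u, v⟩, h1, e, ⟨h2, h3⟩ | ⟨h2, h3⟩⟩
      · refine ⟨e, Subtype.ext ?_⟩
        exact Prod.ext h2.symm h3.symm
      · exfalso
        have h4 := hlt e
        rw [← h2, ← h3] at h4
        exact lt_asymm h1 h4⟩
  have hS : ∀ e, (S e).1 = (e0 (s e), e0 (t e)) := fun e => rfl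
  let Φ : V ≃ Fin n ⊕ EdgeOf R × Fin r :=
    Θ.symm.trans (Equiv.sumCongr e0 (Equiv.prodCongr S (Equiv.refl _)))
  have hΦ1 : ∀ o, Φ (Θ (Sum.inl o)) = Sum.inl (e0 o) := fun o => by simp [Φ]
  have hΦ2 : ∀ e k, Φ (Θ (Sum.inr (e, k))) = Sum.inr (S e, k) := fun e k => by simp [Φ]
  refine ⟨n, R, hR, Φ, fun x y => ?_⟩
  obtain ⟨a, rfl⟩ := Θ.surjective x
  obtain ⟨c, rfl⟩ := Θ.surjective y
  rcases a with o | ⟨e, k⟩ <;> rcases c with o' | ⟨e', k'⟩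
  · rw [hΦ1, hΦ1]
    constructor
    · intro h
      exact absurd h (hOO o o')
    · rintro (⟨h, _⟩ | ⟨h, _⟩) <;> omega
  · rw [hΦ1, hΦ2, hOE]
    show _ ↔ ((e0 o = (S e').1.1 ∧ (k' : ℕ) = 0) ∨ (e0 o = (S e').1.2 ∧ (k' : ℕ) + 1 = r))
    rw [hS]
    simp only [EmbeddingLike.apply_eq_iff_eq]
  · rw [hΦ1, hΦ2, hEO]
    show _ ↔ ((e0 o' = (S e).1.2 ∧ (k : ℕ) + 1 = r) ∨ (e0 o' = (S e).1.1 ∧ (k : ℕ) = 0))
    rw [hS, or_comm]
    simp only [EmbeddingLike.apply_eq_iff_eq]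
  · rw [hΦ2, hΦ2, hEE]
    show _ ↔ ((S e = S e' ∧ (k' : ℕ) = k + 1) ∨ (S e' = S e ∧ (k : ℕ) = k' + 1))
    simp only [EmbeddingLike.apply_eq_iff_eq]
    constructor
    · rintro ⟨rfl, h | h⟩
      · exact Or.inl ⟨rfl, h⟩
      · exact Or.inr ⟨rfl, h⟩
    · rintro (⟨rfl, h⟩ | ⟨rfl, h⟩)
      · exact ⟨rfl, Or.inl h⟩
      · exact ⟨rfl, Or.inr h⟩

end Pool.Agent.Helper80.EX
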