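import Pool.Agent.Helper80.EX.Defs

/-!
# The gadgets are found again
-/

set_option autoImplicit false

namespace Pool.Agent.Helper80.EX

open FirstOrder FirstOrder.Language Pool.Agent.Helper20.Spectra Pool.Agent.Helper20.OP
  Pool.Agent.Helper20.FS

variable {b A j : ℕ} {U V : Type}

lemma wAdj_cen (i : Fin b) (w : W b A) :
    wAdj (.cen i) w ↔ ∃ l, w = .leg i l 0 (len_pos A i l) := by
  constructor
  · intro h
    rcases w with i' | ⟨i', l, t, ht⟩
    · rcases h with h | h <;> exact absurd h id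
    · rcases h with h | h
      · obtain ⟨rfl, rfl⟩ : i = i' ∧ t = 0 := h
        exact ⟨l, rfl⟩
      · exact absurd h id
  · rintro ⟨l, rfl⟩
    exact Or.inl ⟨rfl, rfl⟩

lemma wAdj_leg (i : Fin b) (l : Fin 3) (t : ℕ) (ht : t < len A i l) (w : W b A) :
    wAdj (.leg i l t ht) w ↔ (t = 0 ∧ w = .cen i) ∨
      (∃ t' h', t = t' + 1 ∧ w = .leg i l t' h') ∨ ∃ h', w = .leg i l (t + 1) h' := by
  constructor
  · intro h
    rcases w with i' | ⟨i', l', t', ht'⟩
    · rcases h with h | h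
      · exact absurd h id
      · obtain ⟨rfl, rfl⟩ : i' = i ∧ t = 0 := h
        exact Or.inl ⟨rfl, rfl⟩
    · rcases h with h | h
      · obtain ⟨rfl, rfl, rfl⟩ : i = i' ∧ l = l' ∧ t' = t + 1 := h
        exact Or.inr (Or.inr ⟨ht', rfl⟩)
      · obtain ⟨rfl, rfl, rfl⟩ : i' = i ∧ l' = l ∧ t = t' + 1 := h
        exact Or.inr (Or.inl ⟨t', ht', rfl, rfl⟩)
  · rintro (⟨rfl, rfl⟩ | ⟨t', h', rfl, rfl⟩ | ⟨h', rfl⟩)
    · exact Or.inr ⟨rfl, rfl⟩
    · exact Or.inr ⟨rfl, rfl, rfl⟩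
    · exact Or.inl ⟨rfl, rfl, rfl⟩

section

variable {R : Str 1 V} {x : V} {z : W b A → V} {g : Fin b → V}

lemma IsGad.cen_nb (h : IsGad R x z g) (i : Fin b) (y : V) :
    R 0 (z (.cen i)) y ↔
      ∃ l, y = z (.leg i l 0 (len_pos A i l)) := by
  rw [h.adj]
  constructor
  · rintro (⟨w', h1, rfl⟩ | ⟨i', h1, _⟩ | ⟨i', h1, _⟩)
    · obtain ⟨l, rfl⟩ := (wAdj_cen i w').1 h1
      exact ⟨l, rfl⟩
    · exact absurd h1 id
    · exact absurd h1 id
  · rintro ⟨l, rfl⟩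
    exact Or.inl ⟨_, (wAdj_cen i _).2 ⟨l, rfl⟩, rfl⟩

lemma IsGad.leg_nb (h : IsGad R x z g) (i : Fin b) (l : Fin 3) (t : ℕ) (ht : t < len A i l)
    (y : V) : R 0 (z (.leg i l t ht)) y ↔ ((t = 0 ∧ y = z (.cen i)) ∨
      (∃ t' h', t = t' + 1 ∧ y = z (.leg i l t' h')) ∨ (∃ h', y = z (.leg i l (t + 1) h')) ∨
      (l = 0 ∧ t + 1 = len A i l ∧ y = x) ∨ (l = 1 ∧ t + 1 = len A i l ∧ y = g i)) := by
  rw [h.adj]
  constructor
  · rintro (⟨w', h1, rfl⟩ | ⟨i', h1, rfl⟩ | ⟨i', h1, rfl⟩)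
    · rcases (wAdj_leg i l t ht w').1 h1 with ⟨h2, rfl⟩ | ⟨t', h', h2, rfl⟩ | ⟨h', rfl⟩
      · exact Or.inl ⟨h2, rfl⟩
      · exact Or.inr (Or.inl ⟨t', h', h2, rfl⟩)
      · exact Or.inr (Or.inr (Or.inl ⟨h', rfl⟩))
    · obtain ⟨rfl, rfl, h2⟩ : i = i' ∧ l = 0 ∧ t + 1 = len A i l := h1
      exact Or.inr (Or.inr (Or.inr (Or.inl ⟨rfl, h2, rfl⟩)))
    · obtain ⟨rfl, rfl, h2⟩ : i = i' ∧ l = 1 ∧ t + 1 = len A i l := h1
      exact Or.inr (Or.inr (Or.inr (Or.inr ⟨rfl, h2, rfl⟩)))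
  · rintro (⟨h2, rfl⟩ | ⟨t', h', h2, rfl⟩ | ⟨h', rfl⟩ | ⟨rfl, h2, rfl⟩ | ⟨rfl, h2, rfl⟩)
    · exact Or.inl ⟨_, (wAdj_leg i l t ht _).2 (Or.inl ⟨h2, rfl⟩), rfl⟩
    · exact Or.inl ⟨_, (wAdj_leg i l t ht _).2 (Or.inr (Or.inl ⟨t', h', h2, rfl⟩)), rfl⟩
    · exact Or.inl ⟨_, (wAdj_leg i l t ht _).2 (Or.inr (Or.inr ⟨h', rfl⟩)), rfl⟩
    · exact Or.inr (Or.inl ⟨i, ⟨rfl, rfl, h2⟩, rfl⟩)
    · exact Or.inr (Or.inr ⟨i, ⟨rfl, rfl, h2⟩, rfl⟩)

/-- places on legs have no three neighbours -/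
lemma IsGad.leg_two (h : IsGad R x z g) (i : Fin b) (l : Fin 3) (t : ℕ) (ht : t < len A i l)
    (p : Fin 3 → V) (hp : Function.Injective p) (hR : ∀ e, R 0 (z (.leg i l t ht)) (p e)) :
    False := by
  classical
  have key : ∀ y y', R 0 (z (.leg i l t ht)) y → R 0 (z (.leg i l t ht)) y' →
      ((t = 0 ∧ y = z (.cen i)) ∨ (∃ t' h', t = t' + 1 ∧ y = z (.leg i l t' h')) ↔
        (t = 0 ∧ y' = z (.cen i)) ∨ (∃ t' h', t = t' + 1 ∧ y' = z (.leg i l t' h'))) →
      y = y' := by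
    intro y y' hy hy' hiff
    rw [h.leg_nb] at hy hy'
    have hy2 := or_assoc.2 hy
    have hy2' := or_assoc.2 hy'
    by_cases hc : (t = 0 ∧ y = z (.cen i)) ∨ (∃ t' h', t = t' + 1 ∧ y = z (.leg i l t' h'))
    · rcases hc with ⟨h0, rfl⟩ | ⟨t', h', h0, rfl⟩
      · rcases hiff.1 (Or.inl ⟨h0, rfl⟩) with ⟨_, rfl⟩ | ⟨t', h', h1, rfl⟩
        · rfl
        · omega
      · rcases hiff.1 (Or.inr ⟨t', h', h0, rfl⟩) with ⟨_, rfl⟩ | ⟨t'', h'', h1, rfl⟩
        · omega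
        · obtain rfl : t' = t'' := by omega
          rfl
    · have hy3 := hy2.resolve_left hc
      have hy3' := hy2'.resolve_left (fun hcon => hc (hiff.2 hcon))
      rcases hy3 with ⟨h1, rfl⟩ | ⟨rfl, h1, rfl⟩ | ⟨rfl, h1, rfl⟩ <;>
        rcases hy3' with ⟨h2, rfl⟩ | ⟨h3, h2, rfl⟩ | ⟨h3, h2, rfl⟩
      · rfl
      · omega
      · omega
      · omega
      · rfl
      · exact absurd h3 (by decide)
      · omega
      · exact absurd h3 (by decide)
      · rfl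
  have hinj : Function.Injective (fun e : Fin 3 => decide ((t = 0 ∧ p e = z (.cen i)) ∨
      (∃ t' h', t = t' + 1 ∧ p e = z (.leg i l t' h')))) := by
    intro e e' he
    apply hp
    refine key _ _ (hR e) (hR e') ?_
    have he' : decide ((t = 0 ∧ p e = z (.cen i)) ∨
      (∃ t' h', t = t' + 1 ∧ p e = z (.leg i l t' h'))) = decide ((t = 0 ∧ p e' = z (.cen i)) ∨
      (∃ t' h', t = t' + 1 ∧ p e' = z (.leg i l t' h'))) := he
    exact decide_eq_decide.1 he'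
  have := Fintype.card_le_of_injective _ hinj
  simp at this

lemma IsGad.not_isU (h : IsGad R x z g) (w : W b A) : ¬ isU R (z w) := by
  rintro ⟨p, hp, hR⟩
  rcases w with i | ⟨i, l, t, ht⟩
  · have h1 : ∀ e, ∃ l, p e = z (.leg i l 0 (len_pos A i l)) :=
      fun e => (h.cen_nb i _).1 (hR e)
    choose l hl using h1
    have hinj : Function.Injective l := by
      intro e e' he
      apply hp
      rw [hl e, hl e']
      have : ∀ l l' : Fin 3, l = l' →
          z (.leg i l 0 (len_pos A i l)) =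
          z (.leg i l' 0 (len_pos A i l')) := by
        rintro l l' rfl
        rfl
      exact this _ _ he
    have := Fintype.card_le_of_injective _ hinj
    simp at this
  · exact h.leg_two i l t ht (fun e => p e.castSucc) (fun e e' he =>
      Fin.castSucc_injective 3 (hp he)) (fun e => hR _)

end

section

variable {R : Str 1 V} {x x' : V} {z z' : W b A → V} {g g' : Fin b → V} {i i' : Fin b}

/-- two legs which start at the same places agree as long as both exist -/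
lemma walk (h : IsGad R x z g) (h' : IsGad R x' z' g') (hc : z (.cen i) = z' (.cen i'))
    {l l' : Fin 3} (h0 : z (.leg i l 0 (len_pos A i l)) =
      z' (.leg i' l' 0 (len_pos A i' l'))) :
    ∀ t (ht : t < len A i l) (ht' : t < len A i' l'), z (.leg i l t ht) = z' (.leg i' l' t ht') := by
  intro t
  induction t using Nat.strong_induction_on with
  | _ t ih =>
    intro ht ht'
    rcases t with _ | t
    · exact h0
    have e1 := ih t (by omega) (by omega) (by omega)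
    have h1 : R 0 (z (.leg i l t (by omega))) (z (.leg i l (t + 1) ht)) :=
      (h.leg_nb i l t (by omega) _).2 (Or.inr (Or.inr (Or.inl ⟨ht, rfl⟩)))
    rw [e1, h'.leg_nb] at h1
    rcases h1 with ⟨_, h2⟩ | ⟨s, hs, rfl, h2⟩ | ⟨_, h2⟩ | ⟨_, h2, _⟩ | ⟨_, h2, _⟩
    · rw [← hc] at h2
      exact absurd (h.inj h2) (by simp)
    · rw [← ih s (by omega) (by omega) hs] at h2
      have h3 := h.inj h2
      simp only [W.leg.injEq, true_and] at h3
      omega
    · exact h2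
    · omega
    · omega

lemma len_le (h : IsGad R x z g) (h' : IsGad R x' z' g') (hc : z (.cen i) = z' (.cen i'))
    {l l' : Fin 3} (h0 : z (.leg i l 0 (len_pos A i l)) =
      z' (.leg i' l' 0 (len_pos A i' l'))) :
    len A i' l' ≤ len A i l := by
  by_contra hlt
  push Not at hlt
  have hpos := len_pos A i l
  have ht : len A i l - 1 < len A i l := by omega
  have ht' : len A i l - 1 + 1 < len A i' l' := by omega
  have e1 := walk h h' hc h0 (len A i l - 1) ht (by omega)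
  have h1 : R 0 (z' (.leg i' l' (len A i l - 1) (by omega)))
      (z' (.leg i' l' (len A i l - 1 + 1) ht')) :=
    (h'.leg_nb i' l' _ (by omega) _).2 (Or.inr (Or.inr (Or.inl ⟨ht', rfl⟩)))
  rw [← e1, h.leg_nb] at h1
  rcases h1 with ⟨_, h2⟩ | ⟨s, hs, hs2, h2⟩ | ⟨h2, _⟩ | ⟨_, _, h2⟩ | ⟨_, _, h2⟩
  · rw [hc] at h2
    exact absurd (h'.inj h2) (by simp)
  · rw [walk h h' hc h0 s (by omega) (by omega)] at h2
    have h3 := h'.inj h2
    simp only [W.leg.injEq, true_and] at h3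
    omega
  · omega
  · exact h'.not_isU _ (h2 ▸ h.main)
  · exact h'.not_isU _ (h2 ▸ h.tgt i)

lemma ends (h : IsGad R x z g) (h' : IsGad R x' z' g') (hc : z (.cen i) = z' (.cen i'))
    {l l' : Fin 3} (h0 : z (.leg i l 0 (len_pos A i l)) =
      z' (.leg i' l' 0 (len_pos A i' l'))) (y : V) (hy : isU R y)
    (hy1 : (l = 0 ∧ y = x) ∨ (l = 1 ∧ y = g i)) : (l' = 0 ∧ y = x') ∨ (l' = 1 ∧ y = g' i') := by
  have hn : len A i l = len A i' l' :=
    le_antisymm (len_le h' h hc.symm h0.symm) (len_le h h' hc h0)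
  have hpos := len_pos A i l
  have ht : len A i l - 1 < len A i l := by omega
  have e1 := walk h h' hc h0 (len A i l - 1) ht (by omega)
  have h1 : R 0 (z (.leg i l (len A i l - 1) ht)) y := by
    rw [h.leg_nb]
    rcases hy1 with ⟨h2, h3⟩ | ⟨h2, h3⟩
    · exact Or.inr (Or.inr (Or.inr (Or.inl ⟨h2, by omega, h3⟩)))
    · exact Or.inr (Or.inr (Or.inr (Or.inr ⟨h2, by omega, h3⟩)))
  rw [e1, h'.leg_nb] at h1
  rcases h1 with ⟨_, h2⟩ | ⟨s, hs, hs2, h2⟩ | ⟨_, h2⟩ | ⟨h2, _, h3⟩ | ⟨h2, _, h3⟩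
  · exact absurd (h2 ▸ hy) (h'.not_isU _)
  · exact absurd (h2 ▸ hy) (h'.not_isU _)
  · exact absurd (h2 ▸ hy) (h'.not_isU _)
  · exact Or.inl ⟨h2, h3⟩
  · exact Or.inr ⟨h2, h3⟩

/-- two embeddings with a common centre agree on the gadget -/
theorem compare (h : IsGad R x z g) (h' : IsGad R x' z' g') (hc : z (.cen i) = z' (.cen i')) :
    i = i' ∧ x = x' ∧ g i = g' i' ∧
      ∀ l t (ht : t < len A i l) (ht' : t < len A i' l),
        z (.leg i l t ht) = z' (.leg i' l t ht') := by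
  have hex : ∀ l : Fin 3, ∃ l' : Fin 3,
      z (.leg i l 0 (len_pos A i l)) =
      z' (.leg i' l' 0 (len_pos A i' l')) := by
    intro l
    have h1 : R 0 (z (.cen i)) (z (.leg i l 0 (len_pos A i l))) :=
      (h.cen_nb i _).2 ⟨l, rfl⟩
    rw [hc, h'.cen_nb] at h1
    exact h1
  have hlen : ∀ l l' : Fin 3, z (.leg i l 0 (len_pos A i l)) =
      z' (.leg i' l' 0 (len_pos A i' l')) →
      len A i l = len A i' l' := fun l l' h0 =>
    le_antisymm (len_le h' h hc.symm h0.symm) (len_le h h' hc h0)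
  have h3 : ∀ l : Fin 3, l = 0 ∨ l = 1 ∨ l = 2 := by decide
  obtain ⟨l2, hl2⟩ := hex 2
  have h2 : l2 = 2 := by
    rcases h3 l2 with rfl | rfl | rfl
    · rcases ends h' h hc.symm hl2.symm x' h'.main (Or.inl ⟨rfl, rfl⟩) with ⟨hh, _⟩ | ⟨hh, _⟩ <;>
        exact absurd hh (by decide)
    · rcases ends h' h hc.symm hl2.symm _ (h'.tgt i') (Or.inr ⟨rfl, rfl⟩) with
        ⟨hh, _⟩ | ⟨hh, _⟩ <;> exact absurd hh (by decide)
    · rfl
  subst h2
  have hi : i = i' := by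
    have := hlen 2 2 hl2
    rw [len_two, len_two] at this
    have h4 := Nat.eq_of_mul_eq_mul_right (by omega : 0 < A + 2) this
    apply Fin.ext
    omega
  subst hi
  obtain ⟨l0, hl0⟩ := hex 0
  have h0 : l0 = 0 := by
    have := hlen 0 l0 hl0
    rcases h3 l0 with rfl | rfl | rfl
    · rfl
    · rw [len_zero, len_one] at this
      omega
    · rw [len_zero, len_two] at this
      nlinarith
  subst h0
  obtain ⟨l1, hl1⟩ := hex 1
  have h1 : l1 = 1 := by
    have := hlen 1 l1 hl1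
    rcases h3 l1 with rfl | rfl | rfl
    · rw [len_one, len_zero] at this
      omega
    · rfl
    · rw [len_one, len_two] at this
      nlinarith
  subst h1
  refine ⟨rfl, ?_, ?_, ?_⟩
  · rcases ends h h' hc hl0 x h.main (Or.inl ⟨rfl, rfl⟩) with ⟨_, hh⟩ | ⟨hh, _⟩
    · exact hh
    · exact absurd hh (by decide)
  · rcases ends h h' hc hl1 _ (h.tgt i) (Or.inr ⟨rfl, rfl⟩) with ⟨hh, _⟩ | ⟨_, hh⟩
    · exact absurd hh (by decide)
    · exact hh
  · intro l t ht ht'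
    rcases h3 l with rfl | rfl | rfl
    · exact walk h h' hc hl0 t ht ht'
    · exact walk h h' hc hl1 t ht ht'
    · exact walk h h' hc hl2 t ht ht'

end

end Pool.Agent.Helper80.EX
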